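import Pool.Agent.Q145.SZ.Stm3
import Pool.Agent.Q58.SZ.Mbs
import Pool.Agent.Q58.SZ.Cls

/-!
# Project SZ, job H2: elementary bounds
-/

set_option autoImplicit false

namespace Pool.Agent.Q14.SZ

open Finset Pool.Agent.Q145.SZ
open Pool.Agent.H807R2.Dav (ee)

theorem one_le_vv (W : ℕ) (hW : 1 ≤ W) : 1 ≤ vv W := by
  unfold vv
  have h1 : (0 : ℝ) < Nat.totient W := by exact_mod_cast Nat.totient_pos.2 hW
  rw [le_div_iff₀ h1, one_mul]
  exact_mod_cast Nat.totient_le W

theorem vv_le (z : ℕ) (hz : 1 ≤ z) : vv (PW z) ≤ z := by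
  induction z, hz using Nat.le_induction with
  | base =>
    have h1 : PW 1 = 1 := by
      rw [Pool.Agent.Q58.SZ.PW_succ_not (by norm_num), Pool.Agent.Q58.SZ.PW_zero]
    rw [h1]
    simp [vv]
  | succ z hz ih =>
    have hz0 : (0 : ℝ) < z := by exact_mod_cast hz
    by_cases hp : (z + 1).Prime
    · rw [Pool.Agent.Q58.SZ.PW_succ_prime hp, Pool.Agent.Q58.SZ.vv_mul
        (Pool.Agent.Q58.SZ.coprime_PW hp)]
      have h1 : vv (z + 1) = ((z : ℝ) + 1) / z := by
        unfold vv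
        rw [Nat.totient_prime hp, Nat.add_sub_cancel]
        push_cast
        rfl
      rw [h1]
      have h2 : vv (PW z) * (((z : ℝ) + 1) / z) ≤ z * (((z : ℝ) + 1) / z) :=
        mul_le_mul_of_nonneg_right ih (by positivity)
      refine h2.trans (le_of_eq ?_)
      push_cast
      field_simp
    · rw [Pool.Agent.Q58.SZ.PW_succ_not hp]
      push_cast
      linarith

theorem squarefree_PW (z : ℕ) : Squarefree (PW z) := by
  induction z with
  | zero => rw [Pool.Agent.Q58.SZ.PW_zero]; exact squarefree_one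
  | succ z ih =>
    by_cases hp : (z + 1).Prime
    · rw [Pool.Agent.Q58.SZ.PW_succ_prime hp,
        Nat.squarefree_mul (Pool.Agent.Q58.SZ.coprime_PW hp)]
      exact ⟨ih, hp.prime.squarefree⟩
    · rwa [Pool.Agent.Q58.SZ.PW_succ_not hp]

theorem harm (D : ℕ) : ∑ n ∈ Icc 1 D, 1 / (n : ℝ) ≤ 1 + Real.log D := by
  have h := harmonic_le_one_add_log D
  refine le_trans (le_of_eq ?_) h
  rw [harmonic_eq_sum_Icc]
  push_cast
  exact sum_congr rfl fun n _ => one_div _

theorem inv_tot (n : ℕ) (hn : 1 ≤ n) : 1 / (Nat.totient n : ℝ) ≤ (n.divisors.card : ℝ) / n := by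
  have h1 : n ≤ n.divisors.card * Nat.totient n := by
    calc n = ∑ d ∈ n.divisors, Nat.totient d := (Nat.sum_totient n).symm
      _ ≤ ∑ _d ∈ n.divisors, Nat.totient n := by
          refine sum_le_sum fun d hd => ?_
          exact Nat.le_of_dvd (Nat.totient_pos.mpr hn)
            (Nat.totient_dvd_of_dvd (Nat.dvd_of_mem_divisors hd))
      _ = _ := by rw [sum_const, smul_eq_mul]
  have h2 : (0 : ℝ) < Nat.totient n := by exact_mod_cast Nat.totient_pos.mpr hn
  have h3 : (0 : ℝ) < n := by exact_mod_cast hn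
  rw [div_le_div_iff₀ h2 h3, one_mul]
  exact_mod_cast h1

theorem sum_inv_tot (D : ℕ) :
    ∑ n ∈ Icc 1 D, 1 / (Nat.totient n : ℝ) ≤ (1 + Real.log D) ^ 2 := by
  refine (sum_le_sum fun n hn => inv_tot n (mem_Icc.1 hn).1).trans ?_
  have e1 : ∑ n ∈ Icc 1 D, (n.divisors.card : ℝ) / n =
      ∑ x ∈ (Icc 1 D).sigma (fun n => n.divisors), 1 / (x.2 : ℝ) * (1 / ((x.1 / x.2 : ℕ) : ℝ)) := by
    rw [sum_sigma]
    refine sum_congr rfl fun n hn => ?_
    have h1 : ∀ d ∈ n.divisors, 1 / (d : ℝ) * (1 / ((n / d : ℕ) : ℝ)) = 1 / (n : ℝ) := by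
      intro d hd
      have h2 := Nat.mul_div_cancel' (Nat.dvd_of_mem_divisors hd)
      rw [one_div_mul_one_div, ← Nat.cast_mul, h2]
    rw [sum_congr rfl h1, sum_const, nsmul_eq_mul, mul_one_div]
  have hinj : Set.InjOn (fun x : (_ : ℕ) × ℕ => (x.2, x.1 / x.2))
      ((Icc 1 D).sigma (fun n => n.divisors) : Finset ((_ : ℕ) × ℕ)) := by
    intro x hx y hy hxy
    rw [mem_coe, mem_sigma, Nat.mem_divisors] at hx hy
    simp only [Prod.mk.injEq] at hxy
    obtain ⟨e1, e2⟩ := hxy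
    have e3 : x.1 = y.1 := by
      rw [← Nat.mul_div_cancel' hx.2.1, ← Nat.mul_div_cancel' hy.2.1, e2, e1]
    exact Sigma.ext e3 (heq_of_eq e1)
  have e2 : ∑ x ∈ (Icc 1 D).sigma (fun n => n.divisors),
      1 / (x.2 : ℝ) * (1 / ((x.1 / x.2 : ℕ) : ℝ)) =
      ∑ y ∈ ((Icc 1 D).sigma (fun n => n.divisors)).image
        (fun x : (_ : ℕ) × ℕ => ((x.2, x.1 / x.2) : ℕ × ℕ)),
        1 / (y.1 : ℝ) * (1 / (y.2 : ℝ)) := by
    rw [sum_image hinj]
  rw [e1, e2]
  have h3 : ((Icc 1 D).sigma (fun n => n.divisors)).image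
      (fun x : (_ : ℕ) × ℕ => ((x.2, x.1 / x.2) : ℕ × ℕ)) ⊆
      Icc 1 D ×ˢ Icc 1 D := by
    intro y hy
    obtain ⟨x, hx, rfl⟩ := mem_image.1 hy
    rw [mem_sigma, mem_Icc, Nat.mem_divisors] at hx
    have h4 : 0 < x.2 := Nat.pos_of_dvd_of_pos hx.2.1 (by omega)
    have h5 := Nat.le_of_dvd (by omega) hx.2.1
    rw [mem_product, mem_Icc, mem_Icc]
    exact ⟨⟨h4, by simp only; omega⟩, Nat.div_pos h5 h4,
      (Nat.div_le_self _ _).trans hx.1.2⟩
  refine (sum_le_sum_of_subset_of_nonneg h3 fun _ _ _ => by positivity).trans ?_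
  rw [sum_product]
  simp only
  rw [← sum_mul_sum, sq]
  have := harm D
  exact mul_le_mul this this (sum_nonneg fun _ _ => by positivity)
    (add_nonneg zero_le_one (Real.log_natCast_nonneg D))

theorem rsum_zero (q : ℕ) (hq : 1 ≤ q) : rsum q 0 = (Nat.totient q : ℝ) := by
  have h1 := (ArithmeticFunction.sum_eq_iff_sum_mul_moebius_eq
    (f := fun n => (Nat.totient n : ℝ)) (g := fun n => (n : ℝ))).1
    (fun n _ => by exact_mod_cast Nat.sum_totient n) q hq
  rw [← h1, Nat.sum_divisorsAntidiagonal' (f := fun a b =>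
    ((ArithmeticFunction.moebius a : ℤ) : ℝ) * (b : ℝ))]
  unfold rsum
  rw [filter_true_of_mem (fun d _ => dvd_zero d)]
  exact sum_congr rfl fun d _ => mul_comm _ _

theorem mu_sq_le (q : ℕ) : ((ArithmeticFunction.moebius q : ℤ) : ℝ) ^ 2 ≤ 1 := by
  have h1 : (ArithmeticFunction.moebius q) ^ 2 ≤ 1 := by
    have := ArithmeticFunction.abs_moebius_le_one (n := q)
    rw [sq_le_one_iff_abs_le_one]
    exact this
  exact_mod_cast h1

theorem SR_zero_nonneg (W R : ℕ) : 0 ≤ SR W R 0 := by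
  unfold SR
  refine sum_nonneg fun q hq => ?_
  rw [mem_filter, mem_Icc] at hq
  rw [rsum_zero q hq.1.1]
  positivity

theorem SR_zero_le (W R : ℕ) : SR W R 0 ≤ (1 + Real.log R) ^ 2 := by
  refine le_trans ?_ (sum_inv_tot R)
  unfold SR
  refine (sum_le_sum (g := fun q : ℕ => 1 / (Nat.totient q : ℝ)) ?_).trans
    (sum_le_sum_of_subset_of_nonneg (filter_subset _ _) fun _ _ _ => by positivity)
  intro q hq
  rw [mem_filter, mem_Icc] at hq
  have h2 : (0 : ℝ) < Nat.totient q := by exact_mod_cast Nat.totient_pos.mpr hq.1.1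
  rw [rsum_zero q hq.1.1, div_mul_eq_mul_div, div_le_div_iff₀ (by positivity) h2]
  have h3 := mu_sq_le q
  nlinarith [mul_le_mul_of_nonneg_right h3 (by positivity : (0:ℝ) ≤ (Nat.totient q : ℝ) * Nat.totient q)]

theorem wt_nonneg (u : ℕ) : 0 ≤ wt u := by
  unfold wt
  split_ifs
  · exact Real.log_natCast_nonneg u
  · exact le_rfl

theorem wt_le (u X : ℕ) (hX : 3 ≤ X) (hu : u ≤ 3 * X) : wt u ≤ 2 * Real.log X := by
  have hX0 : (3 : ℝ) ≤ X := by exact_mod_cast hX
  have hl : 0 ≤ Real.log X := Real.log_natCast_nonneg X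
  unfold wt
  split_ifs with hp
  · have h1 : (u : ℝ) ≤ X * X := by
      have : u ≤ X * X := hu.trans (Nat.mul_le_mul_right X hX)
      exact_mod_cast this
    have h2 := Real.log_le_log (by exact_mod_cast hp.pos) h1
    rw [Real.log_mul (by positivity) (by positivity)] at h2
    linarith
  · positivity

end Pool.Agent.Q14.SZ
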