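import Pool.Agent.Q14.SZ.A

/-!
# Project SZ, job H2: the circle method for a fixed point
-/

set_option autoImplicit false

namespace Pool.Agent.Q14.SZ

open Finset MeasureTheory Pool.Agent.Q145.SZ
open Pool.Agent.H807R2.Dav (ee)

/-- restriction to an interval -/
def ind (n n' : ℕ) (f : ℕ → ℝ) (u : ℕ) : ℝ := if u ∈ Ioc n n' then f u else 0

theorem ftr_ind (M n n' : ℕ) (h : n' ≤ M) (f : ℕ → ℝ) (α : ℝ) :
    ftr M (ind n n' f) α = ∑ u ∈ Ioc n n', ((f u : ℝ) : ℂ) * ee (u * α) := by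
  unfold ftr
  have h1 : ∀ u ∈ range (M + 1), ((ind n n' f u : ℝ) : ℂ) * ee (u * α) =
      if u ∈ Ioc n n' then ((f u : ℝ) : ℂ) * ee (u * α) else 0 := by
    intro u _
    unfold ind
    split_ifs
    · rfl
    · simp
  rw [sum_congr rfl h1, sum_ite_mem]
  have h2 : range (M + 1) ∩ Ioc n n' = Ioc n n' := by
    refine inter_eq_right.2 fun u hu => ?_
    rw [mem_Ioc] at hu
    rw [mem_range]
    omega
  rw [h2]

theorem ind_sub (n n' : ℕ) (f g : ℕ → ℝ) :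
    (fun u => ind n n' f u - ind n n' g u) = ind n n' (fun u => f u - g u) := by
  funext u
  unfold ind
  split_ifs
  · rfl
  · rw [sub_zero]

theorem ind_sq (n n' : ℕ) (f : ℕ → ℝ) (u : ℕ) :
    ind n n' f u ^ 2 = ind n n' (fun u => f u ^ 2) u := by
  unfold ind
  split_ifs
  · rfl
  · norm_num

theorem ind_split (X : ℕ) (f : ℕ → ℝ) (u : ℕ) :
    ind X (3 * X) f u = ind X (X + X) f u + ind (2 * X) (2 * X + X) f u := by
  unfold ind
  simp only [mem_Ioc]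
  by_cases h1 : X < u ∧ u ≤ X + X
  · rw [if_pos h1, if_pos (by omega), if_neg (by omega), add_zero]
  · by_cases h2 : 2 * X < u ∧ u ≤ 2 * X + X
    · rw [if_neg h1, if_pos h2, if_pos (by omega), zero_add]
    · rw [if_neg h1, if_neg h2, if_neg (by omega), zero_add]

theorem cls_sum (W : ℕ) [NeZero W] (X M n : ℕ) (h : n + X ≤ M) (f : ℕ → ℝ) (a : ZMod W) :
    ∑ u ∈ (range (M + 1)).filter (fun u : ℕ => (u : ZMod W) = a), ind n (n + X) f u =
      ∑ s ∈ cls X (a - ((n : ℕ) : ZMod W)), f (n + s) := by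
  have h1 : ∑ u ∈ (range (M + 1)).filter (fun u : ℕ => (u : ZMod W) = a), ind n (n + X) f u =
      ∑ u ∈ ((range (M + 1)).filter (fun u : ℕ => (u : ZMod W) = a)).filter
        (fun u => u ∈ Ioc n (n + X)), f u := by
    rw [sum_filter (fun u => u ∈ Ioc n (n + X))]
    rfl
  rw [h1]
  refine sum_nbij' (fun u => u - n) (fun s => n + s) ?_ ?_ ?_ ?_ ?_
  · intro u hu
    rw [mem_filter, mem_filter, mem_range, mem_Ioc] at hu
    unfold cls
    rw [mem_filter, mem_Icc]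
    refine ⟨by omega, ?_⟩
    rw [Nat.cast_sub hu.2.1.le, hu.1.2]
  · intro s hs
    unfold cls at hs
    rw [mem_filter, mem_Icc] at hs
    rw [mem_filter, mem_filter, mem_range, mem_Ioc]
    refine ⟨⟨by omega, ?_⟩, by omega⟩
    rw [Nat.cast_add, hs.2]
    ring
  · intro u hu
    rw [mem_filter, mem_filter, mem_range, mem_Ioc] at hu
    show n + (u - n) = u
    omega
  · intro s _
    show n + s - n = s
    omega
  · intro u hu
    rw [mem_filter, mem_filter, mem_range, mem_Ioc] at hu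
    have : n + (u - n) = u := by omega
    rw [this]

theorem cor_ind (W X n m : ℕ) [NeZero W] (hn : n ∈ Ioc X (2 * X)) (hm : m ∈ Ioc X (2 * X))
    (f g : ℕ → ℝ) (β : ZMod W) :
    cor (3 * X) W (ind n (n + X) f) (ind X (3 * X) g) (n + β) ((m : ℤ) - n) =
      ∑ s ∈ cls X β, f (n + s) * g (m + s) := by
  rw [mem_Ioc] at hn hm
  unfold cor
  have h1 : ∀ u ∈ (range (3 * X + 1)).filter (fun u : ℕ => (u : ZMod W) = n + β),
      ∑ v ∈ (range (3 * X + 1)).filter (fun v : ℕ => (v : ℤ) = u + ((m : ℤ) - n)),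
        ind n (n + X) f u * ind X (3 * X) g v =
      ind n (n + X) (fun u => f u * g (m + (u - n))) u := by
    intro u _
    by_cases hu : u ∈ Ioc n (n + X)
    · have hu' := hu
      rw [mem_Ioc] at hu'
      rw [sum_eq_single (m + (u - n))]
      · unfold ind
        rw [if_pos hu, if_pos hu, if_pos]
        rw [mem_Ioc]
        omega
      · intro v hv hne
        rw [mem_filter, mem_range] at hv
        exact absurd (by omega) hne
      · intro hv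
        refine absurd ?_ hv
        rw [mem_filter, mem_range]
        omega
    · unfold ind
      rw [if_neg hu, if_neg hu]
      exact sum_eq_zero fun v _ => by rw [zero_mul]
  rw [sum_congr rfl h1, cls_sum W X (3 * X) n (by omega)]
  have h2 : (n : ZMod W) + β - n = β := by ring
  rw [h2]
  refine sum_congr rfl fun s _ => ?_
  have h3 : m + (n + s - n) = m + s := by omega
  rw [h3]

theorem sum_sq_le (W : ℕ) [NeZero W] (M : ℕ) (G : ℕ → ℝ) (E : ℝ)
    (h : ∀ a : ZMod W, ∑ u ∈ (range (M + 1)).filter (fun u : ℕ => (u : ZMod W) = a), G u ^ 2 ≤ E) :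
    ∑ u ∈ range (M + 1), G u ^ 2 ≤ W * E := by
  rw [← sum_fiberwise (range (M + 1)) (fun u : ℕ => (u : ZMod W)) (fun u => G u ^ 2)]
  have h1 := sum_le_card_nsmul (univ : Finset (ZMod W)) _ E (fun a _ => h a)
  rwa [card_univ, ZMod.card, nsmul_eq_mul] at h1

theorem meas_Maj (Q W X : ℕ) : MeasurableSet (Maj Q W X) := by
  have h1 : Maj Q W X = ⋃ q : ℕ, ⋃ _ : 1 ≤ q ∧ q ≤ Q, ⋃ k : ℤ,
      {α : ℝ | |(q : ℝ) * W * α - k| ≤ (W : ℝ) * Q / X} := by
    ext α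
    simp only [Maj, Set.mem_ofPred_eq, Set.mem_iUnion, exists_prop, and_assoc]
  rw [h1]
  refine MeasurableSet.iUnion fun q => MeasurableSet.iUnion fun _ => MeasurableSet.iUnion fun k => ?_
  refine measurableSet_le ?_ measurable_const
  fun_prop

theorem Maj_shift (Q W X : ℕ) [NeZero W] (α : ℝ) : α ∈ Maj Q W X ↔ α + 1 / (W : ℝ) ∈ Maj Q W X := by
  have hW : (W : ℝ) ≠ 0 := by exact_mod_cast NeZero.ne W
  unfold Maj
  simp only [Set.mem_ofPred_eq]
  constructor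
  · rintro ⟨q, h1, h2, k, h3⟩
    refine ⟨q, h1, h2, k + q, ?_⟩
    have e1 : (q : ℝ) * W * (α + 1 / W) - ((k + q : ℤ) : ℝ) = q * W * α - k := by
      push_cast
      field_simp
      ring
    rw [e1]
    exact h3
  · rintro ⟨q, h1, h2, k, h3⟩
    refine ⟨q, h1, h2, k - q, ?_⟩
    have e1 : (q : ℝ) * W * α - ((k - q : ℤ) : ℝ) = q * W * (α + 1 / W) - k := by
      push_cast
      field_simp
      ring
    rw [e1]
    exact h3

theorem circ (hENG : S_ENG) (W Q R X : ℕ) [NeZero W] (δ DD EE : ℝ) (hδ0 : 0 ≤ δ)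
    (hmin : ∀ n ∈ Ioc X (2 * X), ∀ α ∉ Maj Q W X,
      ‖∑ u ∈ Ioc n (n + X), ((wt u : ℝ) : ℂ) * ee (u * α)‖ ≤ δ)
    (hmoda : ∀ n ∈ Ioc X (2 * X), ∀ α ∉ Maj Q W X,
      ‖∑ u ∈ Ioc n (n + X), ((md W R u : ℝ) : ℂ) * ee (u * α)‖ ≤ δ)
    (hmaj : ∀ n n' : ℕ, X ≤ n → n ≤ n' → n' ≤ 3 * X →
      ∫ α in Set.Icc (0 : ℝ) 1 ∩ Maj Q W X,
        ‖∑ u ∈ Ioc n n', (((wt u - md W R u : ℝ)) : ℂ) * ee (u * α)‖ ^ 2 ≤ DD)
    (hEF : ∀ n : ℕ, n ≤ 2 * X → ∀ a : ZMod W, ∑ s ∈ cls X a, md W R (n + s) ^ 2 ≤ EE / 2)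
    (hEG : ∀ n : ℕ, n ≤ 2 * X → ∀ a : ZMod W, ∑ s ∈ cls X a, wt (n + s) ^ 2 ≤ EE / 2)
    (n : ℕ) (hn : n ∈ Ioc X (2 * X)) : ∃ R₁ R₂ : ZMod W → ℤ → ℂ,
      (∀ m ∈ Ioc X (2 * X), ∀ β : ZMod W, (((∑ s ∈ cls X β, wt (n + s) * wt (m + s) -
        ∑ s ∈ cls X β, md W R (n + s) * md W R (m + s) : ℝ)) : ℂ) =
          R₁ (n + β) ((m : ℤ) - n) + R₂ (n + β) ((m : ℤ) - n)) ∧
      (∀ h, ∑ a : ZMod W, ‖R₁ a h‖ ^ 2 ≤ 4 * (DD * EE)) ∧
      ∀ H : Finset ℤ, ∑ h ∈ H, ∑ a : ZMod W, ‖R₂ a h‖ ^ 2 ≤ 4 * δ ^ 2 * (W * EE) := by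
  have hn' := hn
  rw [mem_Ioc] at hn'
  have hfull : ∀ f : ℕ → ℝ, (∀ n : ℕ, n ≤ 2 * X → ∀ a : ZMod W, ∑ s ∈ cls X a, f (n + s) ^ 2 ≤ EE / 2) →
      ∀ a : ZMod W, ∑ u ∈ (range (3 * X + 1)).filter (fun u : ℕ => (u : ZMod W) = a),
        ind X (3 * X) f u ^ 2 ≤ EE := by
    intro f hf a
    have h1 : ∀ u ∈ (range (3 * X + 1)).filter (fun u : ℕ => (u : ZMod W) = a),
        ind X (3 * X) f u ^ 2 = ind X (X + X) (fun u => f u ^ 2) u +
          ind (2 * X) (2 * X + X) (fun u => f u ^ 2) u := by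
      intro u _
      rw [ind_sq, ind_split]
    rw [sum_congr rfl h1, sum_add_distrib, cls_sum W X (3 * X) X (by omega),
      cls_sum W X (3 * X) (2 * X) (by omega)]
    have h2 := hf X (by omega) (a - ((X : ℕ) : ZMod W))
    have h3 := hf (2 * X) le_rfl (a - ((2 * X : ℕ) : ZMod W))
    linarith
  have hF' : ∀ a : ZMod W, ∑ u ∈ (range (3 * X + 1)).filter (fun u : ℕ => (u : ZMod W) = a),
      ind n (n + X) (md W R) u ^ 2 ≤ EE := by
    intro a
    rw [sum_congr rfl fun u _ => ind_sq n (n + X) (md W R) u,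
      cls_sum W X (3 * X) n (by omega)]
    have h2 := hEF n hn'.2 (a - ((n : ℕ) : ZMod W))
    have h3 : 0 ≤ ∑ s ∈ cls X (a - ((n : ℕ) : ZMod W)), md W R (n + s) ^ 2 :=
      sum_nonneg fun _ _ => sq_nonneg _
    linarith
  obtain ⟨R₁, R₂, h1, h2, h3⟩ := hENG (3 * X) W (ind n (n + X) wt) (ind n (n + X) (md W R))
    (ind X (3 * X) wt) (ind X (3 * X) (md W R)) (Maj Q W X) δ DD DD EE EE (meas_Maj Q W X)
    (Maj_shift Q W X) hδ0
    (fun α hα => by
      rw [ftr_ind _ _ _ (by omega), ftr_ind _ _ _ (by omega)]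
      exact ⟨hmin n hn α hα, hmoda n hn α hα⟩)
    (by
      rw [ind_sub]
      have : ∀ α : ℝ, ftr (3 * X) (ind n (n + X) (fun u => wt u - md W R u)) α =
          ∑ u ∈ Ioc n (n + X), (((wt u - md W R u : ℝ)) : ℂ) * ee (u * α) := fun α =>
        ftr_ind _ _ _ (by omega) _ _
      simp only [this]
      exact hmaj n (n + X) hn'.1.le (by omega) (by omega))
    (by
      rw [ind_sub]
      have : ∀ α : ℝ, ftr (3 * X) (ind X (3 * X) (fun u => wt u - md W R u)) α =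
          ∑ u ∈ Ioc X (3 * X), (((wt u - md W R u : ℝ)) : ℂ) * ee (u * α) := fun α =>
        ftr_ind _ _ _ le_rfl _ _
      simp only [this]
      exact hmaj X (3 * X) le_rfl (by omega) le_rfl)
    hF' (hfull wt hEG)
  refine ⟨R₁, R₂, ?_, ?_, ?_⟩
  · intro m hm β
    have h4 := h1 (n + β) ((m : ℤ) - n)
    rw [cor_ind W X n m hn hm, cor_ind W X n m hn hm] at h4
    exact h4
  · intro h
    refine (h2 h).trans (le_of_eq (by ring))
  · intro H
    refine (h3 H).trans ?_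
    have h5 := sum_sq_le W (3 * X) _ _ (hfull wt hEG)
    have h6 := sum_sq_le W (3 * X) _ _ (hfull (md W R) hEF)
    have h7 : 0 ≤ 2 * δ ^ 2 := by positivity
    calc 2 * δ ^ 2 * (∑ u ∈ range (3 * X + 1), ind X (3 * X) wt u ^ 2 +
          ∑ u ∈ range (3 * X + 1), ind X (3 * X) (md W R) u ^ 2)
        ≤ 2 * δ ^ 2 * (W * EE + W * EE) :=
          mul_le_mul_of_nonneg_left (add_le_add h5 h6) h7
      _ = 4 * δ ^ 2 * (W * EE) := by ring

end Pool.Agent.Q14.SZ
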