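import Pool.Agent.Q14.SZ.B

/-!
# Project SZ, job H2: estimates and counting
-/

set_option autoImplicit false

namespace Pool.Agent.Q14.SZ

open Finset Pool.Agent.Q145.SZ

theorem five_sq (a b c d e : ℝ) :
    (a + b + c + d + e) ^ 2 ≤ 5 * (a ^ 2 + b ^ 2 + c ^ 2 + d ^ 2 + e ^ 2) := by
  nlinarith [sq_nonneg (a - b), sq_nonneg (a - c), sq_nonneg (a - d), sq_nonneg (a - e),
    sq_nonneg (b - c), sq_nonneg (b - d), sq_nonneg (b - e), sq_nonneg (c - d), sq_nonneg (c - e),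
    sq_nonneg (d - e)]

theorem sum_est {ι : Type} (U : Finset ι) (x c r1 r2 t u : ι → ℝ)
    (y c0 u1 Tb U1 U2 B1 B2 : ℝ) (hc0 : 0 < c0) (hc : ∀ β ∈ U, c0 ≤ c β)
    (he : ∀ β ∈ U, c β * (x β - y) = r1 β + r2 β + t β + u1 + u β)
    (ht : ∀ β ∈ U, |t β| ≤ Tb) (hu1 : |u1| ≤ U1) (hu : ∀ β ∈ U, |u β| ≤ U2)
    (h1 : ∑ β ∈ U, r1 β ^ 2 ≤ B1) (h2 : ∑ β ∈ U, r2 β ^ 2 ≤ B2) :
    ∑ β ∈ U, (x β - y) ^ 2 ≤ 5 * (1 / c0) ^ 2 * (B1 + B2 + U.card * (Tb ^ 2 + U1 ^ 2 + U2 ^ 2)) := by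
  have hp : ∀ β ∈ U, (x β - y) ^ 2 ≤
      5 * (1 / c0) ^ 2 * (r1 β ^ 2 + r2 β ^ 2 + (Tb ^ 2 + U1 ^ 2 + U2 ^ 2)) := by
    intro β hβ
    have e1 : (c0 * (x β - y)) ^ 2 ≤ (c β * (x β - y)) ^ 2 := by
      rw [mul_pow, mul_pow]
      exact mul_le_mul_of_nonneg_right (pow_le_pow_left₀ hc0.le (hc β hβ) 2) (sq_nonneg _)
    rw [he β hβ] at e1
    have e2 := e1.trans (five_sq _ _ _ _ _)
    have e3 : t β ^ 2 ≤ Tb ^ 2 := by
      rw [← sq_abs]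
      exact pow_le_pow_left₀ (abs_nonneg _) (ht β hβ) 2
    have e4 : u1 ^ 2 ≤ U1 ^ 2 := by
      rw [← sq_abs]
      exact pow_le_pow_left₀ (abs_nonneg _) hu1 2
    have e5 : u β ^ 2 ≤ U2 ^ 2 := by
      rw [← sq_abs]
      exact pow_le_pow_left₀ (abs_nonneg _) (hu β hβ) 2
    have e6 : (c0 * (x β - y)) ^ 2 ≤ 5 * (r1 β ^ 2 + r2 β ^ 2 + (Tb ^ 2 + U1 ^ 2 + U2 ^ 2)) := by
      linarith
    have e7 : (x β - y) ^ 2 = (1 / c0) ^ 2 * (c0 * (x β - y)) ^ 2 := by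
      rw [← mul_pow]
      congr 1
      field_simp
    rw [e7]
    calc (1 / c0) ^ 2 * (c0 * (x β - y)) ^ 2 ≤
          (1 / c0) ^ 2 * (5 * (r1 β ^ 2 + r2 β ^ 2 + (Tb ^ 2 + U1 ^ 2 + U2 ^ 2))) :=
          mul_le_mul_of_nonneg_left e6 (by positivity)
      _ = _ := by ring
  refine (sum_le_sum hp).trans ?_
  rw [← mul_sum, sum_add_distrib, sum_add_distrib, sum_const, nsmul_eq_mul]
  exact mul_le_mul_of_nonneg_left (by linarith) (by positivity)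

theorem sq_term (w T K y Uc : ℝ) (hw : 0 ≤ w) (hT : 0 ≤ T) (hK : 0 < K) (hU : 0 ≤ Uc)
    (h : 10 * (w * T * K) ≤ y) : 20 * w ^ 2 * (Uc * T ^ 2) ≤ 1 / 5 * ((y / K) ^ 2 * Uc) := by
  have h1 : (10 * (w * T * K)) ^ 2 ≤ y ^ 2 := pow_le_pow_left₀ (by positivity) h 2
  have h2 : 20 * w ^ 2 * (Uc * T ^ 2) = 1 / 5 * (((10 * (w * T * K)) ^ 2 / K ^ 2) * Uc) := by
    field_simp
    ring
  rw [h2, div_pow]
  exact mul_le_mul_of_nonneg_left (mul_le_mul_of_nonneg_right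
    (div_le_div_of_nonneg_right h1 (by positivity)) hU) (by norm_num)

theorem final (w B1 B2 Uc Tb U1 U2 y K L W : ℝ) (hw : 0 ≤ w) (hL : 10 ≤ L) (hK : 1 ≤ K)
    (hW : 20 * K * L ≤ W) (hy : 1 / 2 ≤ y) (hU : W / L ^ 2 ≤ Uc)
    (h1 : w ^ 2 * B1 ≤ 4 * W / (K ^ 2 * L ^ 9)) (h2 : w ^ 2 * B2 ≤ 1 / W)
    (hTb : 0 ≤ Tb) (hU1 : 0 ≤ U1) (hU2 : 0 ≤ U2)
    (h3 : 10 * (w * Tb * K) ≤ y) (h4 : 10 * (w * U1 * K) ≤ y) (h5 : 10 * (w * U2 * K) ≤ y) :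
    5 * (2 * w) ^ 2 * (B1 + B2 + Uc * (Tb ^ 2 + U1 ^ 2 + U2 ^ 2)) ≤ (y / K) ^ 2 * Uc := by
  have hL0 : 0 < L := by linarith
  have hK0 : 0 < K := by linarith
  have hW0 : 0 < W := lt_of_lt_of_le (by positivity) hW
  have hU0 : 0 ≤ Uc := le_trans (by positivity) hU
  have g3 := sq_term w Tb K y Uc hw hTb hK0 hU0 h3
  have g4 := sq_term w U1 K y Uc hw hU1 hK0 hU0 h4
  have g5 := sq_term w U2 K y Uc hw hU2 hK0 hU0 h5
  have hZ : W / (4 * K ^ 2 * L ^ 2) ≤ (y / K) ^ 2 * Uc := by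
    have e1 : W / (4 * K ^ 2 * L ^ 2) = ((1 / 2) / K) ^ 2 * (W / L ^ 2) := by
      field_simp
      ring
    rw [e1]
    exact mul_le_mul (pow_le_pow_left₀ (by positivity)
      (div_le_div_of_nonneg_right hy hK0.le) 2) hU (by positivity) (by positivity)
  have g1 : 20 * (w ^ 2 * B1) ≤ 1 / 5 * ((y / K) ^ 2 * Uc) := by
    have e1 : 20 * (4 * W / (K ^ 2 * L ^ 9)) ≤ 1 / 5 * (W / (4 * K ^ 2 * L ^ 2)) := by
      have e2 : (1600 : ℝ) ≤ L ^ 7 := by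
        calc (1600 : ℝ) ≤ 10 ^ 7 := by norm_num
          _ ≤ L ^ 7 := pow_le_pow_left₀ (by norm_num) hL 7
      have e3 : 20 * (4 * W / (K ^ 2 * L ^ 9)) = 1600 * (W / (20 * (K ^ 2 * L ^ 9))) := by
        field_simp
        ring
      have e4 : 1 / 5 * (W / (4 * K ^ 2 * L ^ 2)) = L ^ 7 * (W / (20 * (K ^ 2 * L ^ 9))) := by
        field_simp
        ring
      rw [e3, e4]
      exact mul_le_mul_of_nonneg_right e2 (by positivity)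
    linarith
  have g2 : 20 * (w ^ 2 * B2) ≤ 1 / 5 * ((y / K) ^ 2 * Uc) := by
    have e1 : 20 * (1 / W) ≤ 1 / 5 * (W / (4 * K ^ 2 * L ^ 2)) := by
      have e2 : (20 * K * L) ^ 2 ≤ W ^ 2 := pow_le_pow_left₀ (by positivity) hW 2
      have e3 : 20 * (1 / W) = (20 * K * L) ^ 2 * (1 / (20 * K ^ 2 * L ^ 2 * W)) := by
        field_simp
      have e4 : 1 / 5 * (W / (4 * K ^ 2 * L ^ 2)) = W ^ 2 * (1 / (20 * K ^ 2 * L ^ 2 * W)) := by
        field_simp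
        ring
      rw [e3, e4]
      exact mul_le_mul_of_nonneg_right e2 (by positivity)
    linarith
  have e1 : 5 * (2 * w) ^ 2 * (B1 + B2 + Uc * (Tb ^ 2 + U1 ^ 2 + U2 ^ 2)) =
      20 * (w ^ 2 * B1) + 20 * (w ^ 2 * B2) + 20 * w ^ 2 * (Uc * Tb ^ 2) +
        20 * w ^ 2 * (Uc * U1 ^ 2) + 20 * w ^ 2 * (Uc * U2 ^ 2) := by ring
  rw [e1]
  linarith

theorem count1 (X n : ℕ) (f : ℤ → ℝ) (B τ : ℝ)
    (h : ∀ H : Finset ℤ, ∑ x ∈ H, f x ≤ B) :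
    (((Ioc X (2 * X)).filter (fun m : ℕ => τ < f ((m : ℤ) - n))).card : ℝ) * τ ≤ B := by
  classical
  have h1 := h (((Ioc X (2 * X)).filter (fun m : ℕ => τ < f ((m : ℤ) - n))).image
    (fun m : ℕ => (m : ℤ) - n))
  rw [sum_image (fun a _ b _ hab => by
    have : (a : ℤ) - n = (b : ℤ) - n := hab
    omega)] at h1
  refine le_trans ?_ h1
  rw [← nsmul_eq_mul]
  exact card_nsmul_le_sum _ _ _ fun m hm => (mem_filter.1 hm).2.le

theorem count2 (X n : ℕ) (hn : n ∈ Ioc X (2 * X)) (g : ℕ → ℝ) (B ε : ℝ) (hε : 0 < ε)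
    (hg : ∀ h, 0 ≤ g h) (h : ∑ x ∈ Icc 1 X, g x ≤ B) :
    (((Ioc X (2 * X)).filter (fun m : ℕ => n ≠ m ∧ ε < g (dst n m))).card : ℝ) * ε ≤ 2 * B := by
  classical
  obtain ⟨T, hT⟩ : ∃ T : Finset ℕ, T = (Icc 1 X).filter (fun x => ε < g x) := ⟨_, rfl⟩
  have h1 : (T.card : ℝ) * ε ≤ B := by
    refine le_trans ?_ ((sum_le_sum_of_subset_of_nonneg (f := g) (t := Icc 1 X) (s := T)
      (by rw [hT]; exact filter_subset _ _) fun _ _ _ => hg _).trans h)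
    rw [← nsmul_eq_mul]
    refine card_nsmul_le_sum _ _ _ fun m hm => ?_
    rw [hT] at hm
    exact (mem_filter.1 hm).2.le
  have h2 : (Ioc X (2 * X)).filter (fun m : ℕ => n ≠ m ∧ ε < g (dst n m)) ⊆
      T.image (fun x => n + x) ∪ T.image (fun x => n - x) := by
    intro m hm
    rw [mem_filter, mem_Ioc] at hm
    rw [mem_Ioc] at hn
    obtain ⟨⟨hm1, hm2⟩, hne, hm3⟩ := hm
    have hd : dst n m = (n - m) + (m - n) := rfl
    have hmT : dst n m ∈ T := by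
      rw [hT, mem_filter, mem_Icc]
      exact ⟨by omega, hm3⟩
    rw [mem_union, mem_image, mem_image]
    rcases lt_or_gt_of_ne hne with h3 | h3
    · exact Or.inl ⟨dst n m, hmT, by omega⟩
    · exact Or.inr ⟨dst n m, hmT, by omega⟩
  have h3 : ((Ioc X (2 * X)).filter (fun m : ℕ => n ≠ m ∧ ε < g (dst n m))).card ≤
      T.card + T.card :=
    (card_le_card h2).trans ((card_union_le _ _).trans (add_le_add card_image_le card_image_le))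
  have h4 : (((Ioc X (2 * X)).filter (fun m : ℕ => n ≠ m ∧ ε < g (dst n m))).card : ℝ) ≤
      T.card + T.card := by exact_mod_cast h3
  have h5 := mul_le_mul_of_nonneg_right h4 hε.le
  linarith

theorem count_pairs (X : ℕ) (P : ℕ → ℕ → Prop) [∀ n m, Decidable (P n m)] (B : ℝ)
    (h : ∀ n ∈ Ioc X (2 * X), (((Ioc X (2 * X)).filter (fun m => P n m)).card : ℝ) ≤ B) :
    ((((Ioc X (2 * X)) ×ˢ (Ioc X (2 * X))).filter (fun p => P p.1 p.2)).card : ℝ) ≤ X * B := by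
  have h1 : (((Ioc X (2 * X)) ×ˢ (Ioc X (2 * X))).filter (fun p => P p.1 p.2)).card =
      ∑ n ∈ Ioc X (2 * X), ((Ioc X (2 * X)).filter (fun m => P n m)).card := by
    rw [card_filter, sum_product]
    refine sum_congr rfl fun n _ => ?_
    rw [card_filter]
  rw [h1]
  push_cast
  have h2 := sum_le_card_nsmul (Ioc X (2 * X)) _ B h
  rw [Nat.card_Ioc, nsmul_eq_mul] at h2
  have h3 : 2 * X - X = X := by omega
  rwa [h3] at h2

end Pool.Agent.Q14.SZ
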