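import Pool.Agent.Q14.SZ.C

/-!
# Project SZ, job H2: parameters
-/

set_option autoImplicit false

namespace Pool.Agent.Q14.SZ

open Finset Pool.Agent.Q145.SZ

theorem params (N N' : ℕ) (K0 : ℝ) (z0 : ℕ) (h4 : ∀ z : ℕ, (PW z : ℝ) ≤ 4 ^ z)
    (he : ∀ z : ℕ, z0 ≤ z → Real.exp ((z : ℝ) / 2) ≤ PW z) :
    ∃ C₁ X₀ : ℕ, ∀ z X : ℕ, X₀ ≤ X → C₁ * Real.log (Real.log X) ≤ z → C₁ * (z : ℝ) ≤ Real.log X →
      K0 ≤ Real.log X ∧ (z : ℝ) ≤ Real.log X ∧ 3 ≤ z ∧ Real.log X ^ N ≤ PW z ∧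
        (PW z : ℝ) ^ N' ≤ X ∧ 0 < X := by
  obtain ⟨K1, hK1⟩ : ∃ K1 : ℝ, K1 = |K0| + 100 + Real.exp (z0 + 3) := ⟨_, rfl⟩
  refine ⟨2 * N + 2 * N' + 1, ⌈Real.exp K1⌉₊, fun z X hX h1 h2 => ?_⟩
  have hXe : Real.exp K1 ≤ X := (Nat.le_ceil _).trans (by exact_mod_cast hX)
  have hXpos : (0 : ℝ) < X := (Real.exp_pos _).trans_le hXe
  obtain ⟨L, hL⟩ : ∃ L : ℝ, L = Real.log X := ⟨_, rfl⟩
  have hLK : K1 ≤ L := by
    rw [hL]
    exact (Real.le_log_iff_exp_le hXpos).2 hXe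
  rw [← hL] at h1 h2 ⊢
  have hexp0 := Real.exp_pos ((z0 : ℝ) + 3)
  have habs := abs_nonneg K0
  have hL100 : 100 ≤ L := by linarith
  have hL0 : 0 < L := by linarith
  have hLz : Real.exp (z0 + 3) ≤ L := by linarith
  have hll : (z0 : ℝ) + 3 ≤ Real.log L := (Real.le_log_iff_exp_le hL0).2 hLz
  have hz0 : (0 : ℝ) ≤ z0 := Nat.cast_nonneg _
  have hll0 : 0 ≤ Real.log L := by linarith
  have hN0 : (0 : ℝ) ≤ N := Nat.cast_nonneg _
  have hN0' : (0 : ℝ) ≤ N' := Nat.cast_nonneg _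
  push_cast at h1 h2
  have hzr : (z0 : ℝ) + 3 ≤ z := by nlinarith
  have hz3 : z0 + 3 ≤ z := by exact_mod_cast hzr
  have hz0' : (0 : ℝ) ≤ z := Nat.cast_nonneg _
  refine ⟨?_, ?_, by omega, ?_, ?_, by exact_mod_cast hXpos⟩
  · linarith [le_abs_self K0]
  · nlinarith
  · refine le_trans ?_ (he z (by omega))
    have e1 : L ^ N = Real.exp (N * Real.log L) := by
      rw [mul_comm, Real.exp_mul, Real.exp_log hL0, Real.rpow_natCast]
    rw [e1]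
    refine Real.exp_le_exp.2 ?_
    nlinarith
  · have e1 : (PW z : ℝ) ^ N' ≤ (4 ^ z) ^ N' := pow_le_pow_left₀ (Nat.cast_nonneg _) (h4 z) N'
    have e2 : (4 : ℝ) ≤ Real.exp 2 := by
      have e3 := Real.add_one_le_exp (1 : ℝ)
      have e4 : Real.exp 2 = Real.exp 1 * Real.exp 1 := by
        rw [← Real.exp_add]
        norm_num
      rw [e4]
      nlinarith
    have e3 : ((4 : ℝ) ^ z) ^ N' ≤ (Real.exp 2 ^ z) ^ N' :=
      pow_le_pow_left₀ (by positivity) (pow_le_pow_left₀ (by norm_num) e2 z) N'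
    refine (e1.trans e3).trans ?_
    rw [← Real.exp_nat_mul, ← Real.exp_nat_mul]
    have e5 : Real.exp L = X := by rw [hL, Real.exp_log hXpos]
    rw [← e5]
    refine Real.exp_le_exp.2 ?_
    nlinarith

end Pool.Agent.Q14.SZ
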