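import Pool.Agent.Q14.SZ.D

/-!
# Project SZ, job H2: the second moment input
-/

set_option autoImplicit false

namespace Pool.Agent.Q14.SZ

open Finset MeasureTheory Pool.Agent.Q145.SZ
open Pool.Agent.H807R2.Dav (ee)

theorem core (A X W : ℕ) [NeZero W] (L C : ℝ) (Q R : ℕ) (SPf : ℕ → ℝ)
    (hsq : Squarefree W) (hL : L = Real.log X) (hL100 : 100 ≤ L) (hLC : C ≤ L) (hC : 0 < C)
    (hX3 : 3 ≤ X) (hLW : L ^ (2 * A + 100) ≤ W) (hWX : (W : ℝ) ^ (200 * (2 * A + 20)) ≤ X)
    (hQ : Q = W ^ (2 * A + 12)) (hR : R = Q * W) (hvz : vv W ≤ L)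
    (hENG : S_ENG)
    (hmaj : ∀ n n' : ℕ, X ≤ n → n ≤ n' → n' ≤ 3 * X →
      ∫ α in Set.Icc (0 : ℝ) 1 ∩ Maj Q W X,
        ‖∑ u ∈ Ioc n n', (((wt u - md W R u : ℝ)) : ℂ) * ee (u * α)‖ ^ 2 ≤
          C * (1 + Real.log R) * X / L ^ (2 * A + 16))
    (hmin : ∀ n ∈ Ioc X (2 * X), ∀ α ∉ Maj Q W X,
      ‖∑ u ∈ Ioc n (n + X), ((wt u : ℝ) : ℂ) * ee (u * α)‖ ≤ X * L ^ 9 / √(Q : ℝ))
    (hMODA : S_MODA) (hMODC : S_MODC)
    (hmode : ∑ h ∈ Icc 1 X, |SR W R h - SPf h| ≤ X / √(R : ℝ))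
    (hSP : ∀ h, 1 / 2 ≤ SPf h)
    (hUS1 : ∀ n m : ℕ, n % 2 = m % 2 → (W : ℝ) / L ^ 2 ≤ ((Us (n : ZMod W) (m : ZMod W)).card : ℝ))
    (hUS2 : ∀ n m : ℕ, n % 2 ≠ m % 2 → Us (n : ZMod W) (m : ZMod W) = ∅) :
    ∃ E : Finset (ℕ × ℕ), (E.card : ℝ) ≤ (X : ℝ) ^ 2 / (W : ℝ) ^ A ∧
      ∀ n ∈ Ioc X (2 * X), ∀ m ∈ Ioc X (2 * X), n ≠ m → (n, m) ∉ E →
        ∑ β ∈ Us (n : ZMod W) (m : ZMod W), (B2 X n m β - vv W ^ 2 * SPf (dst n m)) ^ 2 ≤
          (1 / L ^ A * vv W ^ 2 * SPf (dst n m)) ^ 2 *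
            (Us (n : ZMod W) (m : ZMod W)).card := by
  classical
  -- sizes
  obtain ⟨w, hw⟩ : ∃ w : ℝ, w = W := ⟨_, rfl⟩
  obtain ⟨x, hx⟩ : ∃ x : ℝ, x = X := ⟨_, rfl⟩
  obtain ⟨v, hv⟩ : ∃ v : ℝ, v = vv W := ⟨_, rfl⟩
  rw [← hw] at hLW hWX hUS1 ⊢
  rw [← hx] at hWX hmaj hmin hmode ⊢
  rw [← hv] at hvz ⊢
  have hL0 : 0 < L := by linarith
  have hL1 : 1 ≤ L := by linarith
  have hW0 : 1 ≤ W := Nat.one_le_iff_ne_zero.2 (NeZero.ne W)
  have hw1 : 1 ≤ w := by rw [hw]; exact_mod_cast hW0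
  have hw0 : 0 < w := by linarith
  have hx3 : 3 ≤ x := by rw [hx]; exact_mod_cast hX3
  have hx0 : 0 < x := by linarith
  have hv1 : 1 ≤ v := by rw [hv]; exact one_le_vv W hW0
  have hv0 : 0 < v := by linarith
  have hLi : ∀ i, i ≤ 2 * A + 100 → L ^ i ≤ w := fun i hi =>
    (pow_le_pow_right₀ hL1 hi).trans hLW
  have hwi : ∀ i, i ≤ 200 * (2 * A + 20) → w ^ i ≤ x := fun i hi =>
    (pow_le_pow_right₀ hw1 hi).trans hWX
  have hLw : L ≤ w := by
    have := hLi 1 (by omega)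
    rwa [pow_one] at this
  have hw100 : 100 ≤ w := by linarith
  have hQr : (Q : ℝ) = w ^ (2 * A + 12) := by rw [hQ, hw]; push_cast; rfl
  have hRr : (R : ℝ) = w ^ (2 * A + 13) := by
    rw [hR]
    push_cast
    rw [hQr, ← hw]
    ring
  have hQ1 : 1 ≤ Q := by rw [hQ]; exact Nat.one_le_pow _ _ hW0
  have hR1 : 1 ≤ R := by rw [hR]; exact Nat.mul_pos hQ1 hW0
  have hsQ : √(Q : ℝ) = w ^ (A + 6) := by
    rw [hQr]
    have : w ^ (2 * A + 12) = (w ^ (A + 6)) ^ 2 := by ring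
    rw [this, Real.sqrt_sq (by positivity)]
  have hsR : w ^ (A + 6) ≤ √(R : ℝ) := by
    rw [hRr]
    refine Real.le_sqrt_of_sq_le ?_
    rw [← pow_mul]
    exact pow_le_pow_right₀ hw1 (by omega)
  have hlogw0 : 0 ≤ Real.log w := Real.log_nonneg hw1
  have hlogR : Real.log R ≤ L / 100 := by
    have h1 := Real.log_le_log (by positivity) hWX
    rw [Real.log_pow, hx, ← hL] at h1
    rw [hRr, Real.log_pow]
    push_cast at h1 ⊢
    have hA0 : (0 : ℝ) ≤ A := Nat.cast_nonneg A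
    nlinarith
  have hlogR0 : 0 ≤ Real.log R := Real.log_natCast_nonneg R
  -- the parameters
  obtain ⟨δ, hδ⟩ : ∃ δ : ℝ, δ = x / w ^ (A + 5) := ⟨_, rfl⟩
  obtain ⟨DD, hDD⟩ : ∃ DD : ℝ, DD = x * L ^ 2 / L ^ (2 * A + 16) := ⟨_, rfl⟩
  obtain ⟨EE, hEE⟩ : ∃ EE : ℝ, EE = x * L ^ 5 / w := ⟨_, rfl⟩
  obtain ⟨τ, hτ⟩ : ∃ τ : ℝ, τ = x ^ 2 / w ^ 3 := ⟨_, rfl⟩
  obtain ⟨ε, hε⟩ : ∃ ε : ℝ, ε = 1 / L ^ (A + 2) := ⟨_, rfl⟩
  have hδ0 : 0 ≤ δ := by rw [hδ]; positivity
  have hτ0 : 0 < τ := by rw [hτ]; positivity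
  have hε0 : 0 < ε := by rw [hε]; positivity
  have hmin' : ∀ n ∈ Ioc X (2 * X), ∀ α ∉ Maj Q W X,
      ‖∑ u ∈ Ioc n (n + X), ((wt u : ℝ) : ℂ) * ee (u * α)‖ ≤ δ := by
    intro n hn α hα
    refine (hmin n hn α hα).trans ?_
    rw [hsQ, hδ, div_le_div_iff₀ (by positivity) (by positivity)]
    have h1 : w ^ (A + 6) = w * w ^ (A + 5) := by ring
    rw [h1, mul_assoc]
    refine mul_le_mul_of_nonneg_left ?_ hx0.le
    exact mul_le_mul_of_nonneg_right (hLi 9 (by omega)) (by positivity)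
  have hmoda' : ∀ n ∈ Ioc X (2 * X), ∀ α ∉ Maj Q W X,
      ‖∑ u ∈ Ioc n (n + X), ((md W R u : ℝ) : ℂ) * ee (u * α)‖ ≤ δ := by
    intro n hn α hα
    refine (hMODA W R Q X n (n + X) α hsq hR1 hQ1 (by omega) (by omega) (by omega) hα).trans ?_
    rw [← hx, ← hw, hQr, hRr]
    have h1 : 4 * (1 + Real.log (w ^ (2 * A + 13))) ≤ L := by
      rw [← hRr]
      linarith
    have h2 : 4 * (1 + Real.log (w ^ (2 * A + 13))) * x / w ^ (2 * A + 12) ≤ δ / 2 := by
      have h3 : 4 * (1 + Real.log (w ^ (2 * A + 13))) * x / w ^ (2 * A + 12) ≤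
          L * x / w ^ (2 * A + 12) :=
        div_le_div_of_nonneg_right (mul_le_mul_of_nonneg_right h1 hx0.le) (by positivity)
      refine h3.trans ?_
      rw [hδ, div_div, div_le_div_iff₀ (by positivity) (by positivity)]
      have h4 : w ^ (2 * A + 12) = w ^ (A + 5) * w ^ (A + 7) := by ring
      have h5 : L * 2 ≤ w ^ (A + 7) := by
        have h6 : w ^ 1 ≤ w ^ (A + 7) := pow_le_pow_right₀ hw1 (by omega)
        have h7 := hLi 2 (by omega)
        rw [pow_one] at h6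
        nlinarith
      rw [h4]
      calc L * x * (w ^ (A + 5) * 2) = x * w ^ (A + 5) * (L * 2) := by ring
        _ ≤ x * w ^ (A + 5) * w ^ (A + 7) := mul_le_mul_of_nonneg_left h5 (by positivity)
        _ = x * (w ^ (A + 5) * w ^ (A + 7)) := by ring
    have h8 : (w * w ^ (2 * A + 13)) ^ 3 ≤ δ / 2 := by
      rw [hδ, div_div, le_div_iff₀ (by positivity)]
      have h9 : (w * w ^ (2 * A + 13)) ^ 3 * (w ^ (A + 5) * 2) = w ^ (7 * A + 47) * 2 := by ring
      rw [h9]
      calc w ^ (7 * A + 47) * 2 ≤ w ^ (7 * A + 47) * w :=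
            mul_le_mul_of_nonneg_left (by linarith) (by positivity)
        _ = w ^ (7 * A + 48) := by ring
        _ ≤ x := hwi _ (by omega)
    linarith
  have hmaj' : ∀ n n' : ℕ, X ≤ n → n ≤ n' → n' ≤ 3 * X →
      ∫ α in Set.Icc (0 : ℝ) 1 ∩ Maj Q W X,
        ‖∑ u ∈ Ioc n n', (((wt u - md W R u : ℝ)) : ℂ) * ee (u * α)‖ ^ 2 ≤ DD := by
    intro n n' h1 h2 h3
    refine (hmaj n n' h1 h2 h3).trans ?_
    rw [hDD]
    refine div_le_div_of_nonneg_right ?_ (by positivity)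
    have h4 : C * (1 + Real.log R) ≤ L * L :=
      mul_le_mul hLC (by linarith) (by positivity) hL0.le
    calc C * (1 + Real.log R) * x ≤ L * L * x := mul_le_mul_of_nonneg_right h4 hx0.le
      _ = x * L ^ 2 := by ring
  have hwx : w ≤ x := by
    have := hwi 1 (by omega)
    rwa [pow_one] at this
  have hEG : ∀ n : ℕ, n ≤ 2 * X → ∀ a : ZMod W, ∑ s ∈ cls X a, wt (n + s) ^ 2 ≤ EE / 2 := by
    intro n hn a
    have h1 : ∀ s ∈ cls X a, wt (n + s) ^ 2 ≤ (2 * L) ^ 2 := by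
      intro s hs
      unfold cls at hs
      rw [mem_filter, mem_Icc] at hs
      refine pow_le_pow_left₀ (wt_nonneg _) ?_ 2
      rw [hL]
      exact wt_le _ X hX3 (by omega)
    have h2 := sum_le_card_nsmul _ _ _ h1
    rw [nsmul_eq_mul] at h2
    refine h2.trans ?_
    have h3 := Pool.Agent.Q58.SZ.card_cls_le X a
    rw [← hx, ← hw] at h3
    have h4 : x / w + 1 ≤ 2 * (x / w) := by
      have : 1 ≤ x / w := by rwa [le_div_iff₀ hw0, one_mul]
      linarith
    have h5 : ((cls X a).card : ℝ) * (2 * L) ^ 2 ≤ 2 * (x / w) * (2 * L) ^ 2 :=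
      mul_le_mul_of_nonneg_right (h3.trans h4) (by positivity)
    refine h5.trans ?_
    rw [hEE]
    have h6 : (16 : ℝ) ≤ L ^ 3 := by
      calc (16 : ℝ) ≤ 100 ^ 3 := by norm_num
        _ ≤ L ^ 3 := pow_le_pow_left₀ (by norm_num) hL100 3
    have h7 : 2 * (x / w) * (2 * L) ^ 2 = x * L ^ 2 / w / 2 * 16 := by ring
    have h8 : x * L ^ 5 / w / 2 = x * L ^ 2 / w / 2 * L ^ 3 := by ring
    rw [h7, h8]
    exact mul_le_mul_of_nonneg_left h6 (by positivity)
  have hEF : ∀ n : ℕ, n ≤ 2 * X → ∀ a : ZMod W, ∑ s ∈ cls X a, md W R (n + s) ^ 2 ≤ EE / 2 := by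
    intro n hn a
    have h1 := hMODC W R X n n a hsq hR1 (by omega)
    have hd : dst n n = 0 := by unfold dst; omega
    rw [hd, ← hv, ← hx, ← hw] at h1
    have h2 : ∑ s ∈ cls X a, md W R (n + s) ^ 2 =
        ∑ s ∈ cls X a, md W R (n + s) * md W R (n + s) :=
      sum_congr rfl fun s _ => sq _
    rw [h2]
    have h3 : SR W R 0 ≤ L ^ 2 := by
      refine (SR_zero_le W R).trans (pow_le_pow_left₀ (by positivity) ?_ 2)
      linarith
    have h4 : (if a ∈ Us ((n : ℕ) : ZMod W) ((n : ℕ) : ZMod W) then x / w * v ^ 2 * SR W R 0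
        else 0) ≤ x / w * L ^ 2 * L ^ 2 := by
      split_ifs
      · refine mul_le_mul ?_ h3 (SR_zero_nonneg W R) (by positivity)
        exact mul_le_mul_of_nonneg_left (pow_le_pow_left₀ hv0.le hvz 2) (by positivity)
      · positivity
    have h5 := (abs_le.1 h1).2
    have h6 : 2 * v ^ 2 * (R : ℝ) ^ 4 ≤ 2 * L ^ 2 * w ^ (8 * A + 52) := by
      rw [hRr]
      have : (w ^ (2 * A + 13)) ^ 4 = w ^ (8 * A + 52) := by ring
      rw [this]
      have := pow_le_pow_left₀ hv0.le hvz 2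
      exact mul_le_mul_of_nonneg_right (by linarith) (by positivity)
    have h7 : x / w * L ^ 2 * L ^ 2 ≤ EE / 4 := by
      rw [hEE]
      have e1 : x / w * L ^ 2 * L ^ 2 = x * L ^ 4 / w / 4 * 4 := by ring
      have e2 : x * L ^ 5 / w / 4 = x * L ^ 4 / w / 4 * L := by ring
      rw [e1, e2]
      exact mul_le_mul_of_nonneg_left (by linarith) (by positivity)
    have h8 : 2 * L ^ 2 * w ^ (8 * A + 52) ≤ EE / 4 := by
      rw [hEE, div_div, le_div_iff₀ (by positivity)]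
      have e1 : w ^ (8 * A + 53) * 8 ≤ x := by
        calc w ^ (8 * A + 53) * 8 ≤ w ^ (8 * A + 53) * w :=
              mul_le_mul_of_nonneg_left (by linarith) (by positivity)
          _ = w ^ (8 * A + 54) := by ring
          _ ≤ x := hwi _ (by omega)
      have e2 : L ^ 2 ≤ L ^ 5 := pow_le_pow_right₀ hL1 (by omega)
      calc 2 * L ^ 2 * w ^ (8 * A + 52) * (w * 4) = (w ^ (8 * A + 53) * 8) * L ^ 2 := by ring
        _ ≤ x * L ^ 5 := mul_le_mul e1 e2 (by positivity) hx0.le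
    linarith
  have hcirc := circ hENG W Q R X δ DD EE hδ0 hmin' hmoda' hmaj' hEF hEG
  choose! R₁ R₂ hc1 hc2 hc3 using hcirc
  -- the exceptional set
  obtain ⟨g1, hg1⟩ : ∃ g1 : ℕ → ℤ → ℝ, ∀ n h, g1 n h = ∑ a : ZMod W, ‖R₂ n a h‖ ^ 2 :=
    ⟨_, fun _ _ => rfl⟩
  obtain ⟨g2, hg2⟩ : ∃ g2 : ℕ → ℝ, ∀ h, g2 h = |SR W R h - SPf h| := ⟨_, fun _ => rfl⟩
  refine ⟨((Ioc X (2 * X)) ×ˢ (Ioc X (2 * X))).filter (fun p => τ < g1 p.1 ((p.2 : ℤ) - p.1)) ∪
    ((Ioc X (2 * X)) ×ˢ (Ioc X (2 * X))).filter (fun p => p.1 ≠ p.2 ∧ ε < g2 (dst p.1 p.2)),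
    ?_, ?_⟩
  · have hE1 : ∀ n ∈ Ioc X (2 * X),
        (((Ioc X (2 * X)).filter (fun m : ℕ => τ < g1 n ((m : ℤ) - n))).card : ℝ) ≤
          4 * δ ^ 2 * (w * EE) / τ := by
      intro n hn
      rw [le_div_iff₀ hτ0]
      refine count1 X n (g1 n) _ τ fun H => ?_
      have h1 := hc3 n hn H
      rw [hw]
      refine le_trans (le_of_eq ?_) h1
      exact sum_congr rfl fun h _ => hg1 n h
    have hE2 : ∀ n ∈ Ioc X (2 * X),
        (((Ioc X (2 * X)).filter (fun m : ℕ => n ≠ m ∧ ε < g2 (dst n m))).card : ℝ) ≤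
          2 * (x / √(R : ℝ)) / ε := by
      intro n hn
      rw [le_div_iff₀ hε0]
      refine count2 X n hn g2 _ ε hε0 (fun h => by rw [hg2]; exact abs_nonneg _) ?_
      refine le_trans (le_of_eq ?_) hmode
      exact sum_congr rfl fun h _ => hg2 h
    have hF1 := count_pairs X (fun n m => τ < g1 n ((m : ℤ) - n)) _ hE1
    have hF2 := count_pairs X (fun n m => n ≠ m ∧ ε < g2 (dst n m)) _ hE2
    rw [← hx] at hF1 hF2
    have hU := card_union_le
      (((Ioc X (2 * X)) ×ˢ (Ioc X (2 * X))).filter (fun p => τ < g1 p.1 ((p.2 : ℤ) - p.1)))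
      (((Ioc X (2 * X)) ×ˢ (Ioc X (2 * X))).filter (fun p => p.1 ≠ p.2 ∧ ε < g2 (dst p.1 p.2)))
    have hU' : ((((Ioc X (2 * X)) ×ˢ (Ioc X (2 * X))).filter
        (fun p => τ < g1 p.1 ((p.2 : ℤ) - p.1)) ∪ ((Ioc X (2 * X)) ×ˢ (Ioc X (2 * X))).filter
        (fun p => p.1 ≠ p.2 ∧ ε < g2 (dst p.1 p.2))).card : ℝ) ≤
        x * (4 * δ ^ 2 * (w * EE) / τ) + x * (2 * (x / √(R : ℝ)) / ε) := by
      refine le_trans ?_ (add_le_add hF1 hF2)
      exact_mod_cast hU
    refine hU'.trans ?_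
    have hG1 : x * (4 * δ ^ 2 * (w * EE) / τ) ≤ x ^ 2 / w ^ A / 2 := by
      have e1 : x * (4 * δ ^ 2 * (w * EE) / τ) = x ^ 2 / w ^ A / 2 * (8 * L ^ 5 / w ^ (A + 7)) := by
        rw [hδ, hEE, hτ]
        have e2 : w ^ (A + 7) = w ^ A * w ^ 7 := by ring
        have e3 : w ^ (A + 5) = w ^ A * w ^ 5 := by ring
        rw [e2, e3]
        field_simp
        ring
      rw [e1]
      refine mul_le_of_le_one_right (by positivity) ?_
      rw [div_le_one (by positivity)]
      have h6 : w ^ 1 ≤ w ^ (A + 7) := pow_le_pow_right₀ hw1 (by omega)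
      have h7 := hLi 6 (by omega)
      rw [pow_one] at h6
      have h8 : 8 * L ^ 5 ≤ L ^ 6 := by
        calc 8 * L ^ 5 ≤ L * L ^ 5 := mul_le_mul_of_nonneg_right (by linarith) (by positivity)
          _ = L ^ 6 := by ring
      linarith
    have hG2 : x * (2 * (x / √(R : ℝ)) / ε) ≤ x ^ 2 / w ^ A / 2 := by
      have e1 : x * (2 * (x / √(R : ℝ)) / ε) ≤ x * (2 * (x / w ^ (A + 6)) / ε) := by
        refine mul_le_mul_of_nonneg_left (div_le_div_of_nonneg_right ?_ hε0.le) hx0.le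
        exact mul_le_mul_of_nonneg_left (div_le_div_of_nonneg_left hx0.le (by positivity) hsR)
          (by norm_num)
      refine e1.trans ?_
      have e4 : x * (2 * (x / w ^ (A + 6)) / ε) =
          x ^ 2 / w ^ A / 2 * (4 * L ^ (A + 2) / w ^ 6) := by
        rw [hε]
        have e2 : w ^ (A + 6) = w ^ A * w ^ 6 := by ring
        rw [e2]
        field_simp
        ring
      rw [e4]
      refine mul_le_of_le_one_right (by positivity) ?_
      rw [div_le_one (by positivity)]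
      have h6 : w ^ 1 ≤ w ^ 6 := pow_le_pow_right₀ hw1 (by omega)
      have h7 := hLi (A + 3) (by omega)
      rw [pow_one] at h6
      have h8 : 4 * L ^ (A + 2) ≤ L ^ (A + 3) := by
        calc 4 * L ^ (A + 2) ≤ L * L ^ (A + 2) :=
              mul_le_mul_of_nonneg_right (by linarith) (by positivity)
          _ = L ^ (A + 3) := by ring
      linarith
    linarith
  · intro n hn m hm hnm hnE
    rw [mem_union, not_or, mem_filter, mem_filter, mem_product] at hnE
    obtain ⟨hnE1, hnE2⟩ := hnE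
    have hk1 : g1 n ((m : ℤ) - n) ≤ τ := by
      by_contra hh
      push Not at hh
      exact hnE1 ⟨⟨hn, hm⟩, hh⟩
    have hk2 : |SR W R (dst n m) - SPf (dst n m)| ≤ ε := by
      rw [← hg2]
      by_contra hh
      push Not at hh
      exact hnE2 ⟨⟨hn, hm⟩, hnm, hh⟩
    by_cases hpar : n % 2 = m % 2
    · obtain ⟨S, hS⟩ : ∃ S : ℝ, S = SPf (dst n m) := ⟨_, rfl⟩
      obtain ⟨y, hy⟩ : ∃ y : ℝ, y = v ^ 2 * SPf (dst n m) := ⟨_, rfl⟩
      have hS2 : 1 / 2 ≤ S := by rw [hS]; exact hSP _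
      have hyv : v ^ 2 / 2 ≤ y := by
        rw [hy, ← hS]
        nlinarith [sq_nonneg v]
      have hy2 : 1 / 2 ≤ y := by
        have : 1 ≤ v ^ 2 := one_le_pow₀ hv1
        linarith
      have hy0 : 0 ≤ y := by linarith
      have hcard : ∀ β : ZMod W, |((cls X β).card : ℝ) - x / w| ≤ 1 := fun β => by
        have := Pool.Agent.Q58.SZ.card_cls X β
        rwa [← hx, ← hw] at this
      have hxw : 2 ≤ x / w := by
        rw [le_div_iff₀ hw0]
        have h1 := hwi 2 (by omega)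
        nlinarith
      have hc0 : ∀ β : ZMod W, x / w / 2 ≤ ((cls X β).card : ℝ) := fun β => by
        have := (abs_le.1 (hcard β)).1
        linarith
      have hsum : ∀ f : ZMod W → ℝ, (∀ a, 0 ≤ f a) →
          ∑ β ∈ Us (n : ZMod W) (m : ZMod W), f ((n : ZMod W) + β) ≤ ∑ a, f a := by
        intro f hf
        refine (sum_le_sum_of_subset_of_nonneg (subset_univ _)
          fun β _ _ => hf ((n : ZMod W) + β)).trans (le_of_eq ?_)
        exact Equiv.sum_comp (Equiv.addLeft (n : ZMod W)) f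
      have hmain := sum_est (Us (n : ZMod W) (m : ZMod W)) (fun β => B2 X n m β)
        (fun β => ((cls X β).card : ℝ))
        (fun β => (R₁ n ((n : ZMod W) + β) ((m : ℤ) - n)).re)
        (fun β => (R₂ n ((n : ZMod W) + β) ((m : ℤ) - n)).re)
        (fun β => ∑ s ∈ cls X β, md W R (n + s) * md W R (m + s) -
          x / w * v ^ 2 * SR W R (dst n m))
        (fun β => (x / w - ((cls X β).card : ℝ)) * y)
        y (x / w / 2) (x / w * v ^ 2 * (SR W R (dst n m) - SPf (dst n m)))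
        (2 * v ^ 2 * (R : ℝ) ^ 4) (x / w * v ^ 2 * ε) y (4 * (DD * EE)) τ
        (by positivity) (fun β _ => hc0 β) ?_ ?_ ?_ ?_ ?_ ?_
      · rw [hy] at hmain
        refine hmain.trans ?_
        rw [← hy]
        obtain ⟨K, hK⟩ : ∃ K : ℝ, K = L ^ A := ⟨_, rfl⟩
        have hK1 : 1 ≤ K := by rw [hK]; exact one_le_pow₀ hL1
        have hK0 : 0 < K := by linarith
        have e1 : 1 / (x / w / 2) = 2 * (w / x) := by field_simp
        have e2 : 1 / L ^ A * v ^ 2 * SPf (dst n m) = y / K := by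
          rw [hy, hK]
          ring
        rw [e1, e2]
        have hKw : K * L ^ 3 ≤ w := by
          rw [hK, ← pow_add]
          exact hLi _ (by omega)
        have hL3 : 1000000 ≤ L ^ 3 := by
          calc (1000000 : ℝ) = 100 ^ 3 := by norm_num
            _ ≤ L ^ 3 := pow_le_pow_left₀ (by norm_num) hL100 3
        have hKle : K ≤ w := by nlinarith
        refine final (w / x) (4 * (DD * EE)) τ _ _ _ _ y K L w (by positivity) (by linarith) hK1
          ?_ hy2 (hUS1 n m hpar) ?_ ?_ (by positivity) (by positivity) hy0 ?_ ?_ ?_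
        · have e3 : 20 * K * L ≤ K * L ^ 3 := by
            have : 20 * L ≤ L ^ 3 := by nlinarith
            calc 20 * K * L = K * (20 * L) := by ring
              _ ≤ K * L ^ 3 := mul_le_mul_of_nonneg_left this hK0.le
          linarith
        · refine le_of_eq ?_
          rw [hDD, hEE]
          have e3 : L ^ (2 * A + 16) = K ^ 2 * L ^ 16 := by
            rw [hK]
            ring
          rw [e3]
          field_simp
        · refine le_of_eq ?_
          rw [hτ]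
          field_simp
        · refine le_trans ?_ hyv
          rw [hRr]
          have e3 : 10 * (w / x * (2 * v ^ 2 * (w ^ (2 * A + 13)) ^ 4) * K) =
              v ^ 2 / 2 * (40 * w ^ (8 * A + 53) * K / x) := by
            have : (w ^ (2 * A + 13)) ^ 4 = w ^ (8 * A + 52) := by ring
            rw [this]
            have : w ^ (8 * A + 53) = w ^ (8 * A + 52) * w := by ring
            rw [this]
            field_simp
            ring
          rw [e3]
          refine mul_le_of_le_one_right (by positivity) ?_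
          rw [div_le_one hx0]
          calc 40 * w ^ (8 * A + 53) * K ≤ w * w ^ (8 * A + 53) * w :=
                mul_le_mul (mul_le_mul_of_nonneg_right (by linarith) (by positivity)) hKle
                  hK0.le (by positivity)
            _ = w ^ (8 * A + 55) := by ring
            _ ≤ x := hwi _ (by omega)
        · refine le_trans ?_ hyv
          have e3 : 10 * (w / x * (x / w * v ^ 2 * ε) * K) = v ^ 2 / 2 * (20 / L ^ 2) := by
            have : L ^ (A + 2) = K * L ^ 2 := by rw [hK]; ring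
            rw [hε, this]
            field_simp
            ring
          rw [e3]
          refine mul_le_of_le_one_right (by positivity) ?_
          rw [div_le_one (by positivity)]
          nlinarith
        · have e3 : 10 * (w / x * y * K) = y * (10 * w * K / x) := by
            field_simp
          rw [e3]
          refine mul_le_of_le_one_right hy0 ?_
          rw [div_le_one hx0]
          calc 10 * w * K ≤ w * w * w :=
                mul_le_mul (mul_le_mul_of_nonneg_right (by linarith) (by positivity)) hKle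
                  hK0.le (by positivity)
            _ = w ^ 3 := by ring
            _ ≤ x := hwi _ (by omega)
      · intro β _
        have h1 := congrArg Complex.re (hc1 n hn m hm β)
        rw [Complex.ofReal_re, Complex.add_re] at h1
        have h2 : ((cls X β).card : ℝ) * B2 X n m β = ∑ s ∈ cls X β, wt (n + s) * wt (m + s) := by
          unfold B2
          rw [mul_div_cancel₀]
          have := hc0 β
          have h3 : 0 < ((cls X β).card : ℝ) := by linarith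
          exact h3.ne'
        show ((cls X β).card : ℝ) * (B2 X n m β - y) =
          (R₁ n ((n : ZMod W) + β) ((m : ℤ) - n)).re + (R₂ n ((n : ZMod W) + β) ((m : ℤ) - n)).re +
          (∑ s ∈ cls X β, md W R (n + s) * md W R (m + s) - x / w * v ^ 2 * SR W R (dst n m)) +
          x / w * v ^ 2 * (SR W R (dst n m) - SPf (dst n m)) +
          (x / w - ((cls X β).card : ℝ)) * y
        rw [mul_sub, h2, ← h1, hy]
        ring
      · intro β hβ
        have h1 := hMODC W R X n m β hsq hR1 (by omega)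
        rw [if_pos hβ, ← hv, ← hx, ← hw] at h1
        exact h1
      · rw [abs_mul, abs_of_nonneg (by positivity : 0 ≤ x / w * v ^ 2)]
        exact mul_le_mul_of_nonneg_left hk2 (by positivity)
      · intro β _
        show |(x / w - ((cls X β).card : ℝ)) * y| ≤ y
        rw [abs_mul, abs_of_nonneg hy0, abs_sub_comm]
        exact mul_le_of_le_one_left hy0 (hcard β)
      · refine le_trans ?_ (hc2 n hn ((m : ℤ) - n))
        refine le_trans (sum_le_sum (g := fun β : ZMod W =>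
          ‖R₁ n ((n : ZMod W) + β) ((m : ℤ) - n)‖ ^ 2) fun β _ => ?_)
          (hsum (fun a => ‖R₁ n a ((m : ℤ) - n)‖ ^ 2) fun a => sq_nonneg _)
        rw [← sq_abs]
        exact pow_le_pow_left₀ (abs_nonneg _) (Complex.abs_re_le_norm _) 2
      · rw [hg1] at hk1
        refine le_trans ?_ hk1
        refine le_trans (sum_le_sum (g := fun β : ZMod W =>
          ‖R₂ n ((n : ZMod W) + β) ((m : ℤ) - n)‖ ^ 2) fun β _ => ?_)
          (hsum (fun a => ‖R₂ n a ((m : ℤ) - n)‖ ^ 2) fun a => sq_nonneg _)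
        rw [← sq_abs]
        exact pow_le_pow_left₀ (abs_nonneg _) (Complex.abs_re_le_norm _) 2
    · rw [hUS2 n m hpar]
      simp

end Pool.Agent.Q14.SZ
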