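import Pool.Agent.Q14.SZ.H2

/-!
# Project SZ, job H2: the theorem
-/

set_option autoImplicit false

namespace Pool.Agent.Q14.SZ

open Finset MeasureTheory Pool.Agent.Q145.SZ
open Pool.Agent.H807R2.Dav (ee)

theorem root_le (w x : ℝ) (k : ℕ) (hk : k ≠ 0) (hw : 0 ≤ w) (h : w ^ k ≤ x) :
    w ≤ x ^ (1 / (k : ℝ)) := by
  have h1 : (w ^ k) ^ (1 / (k : ℝ)) ≤ x ^ (1 / (k : ℝ)) :=
    Real.rpow_le_rpow (by positivity) h (by positivity)
  rwa [one_div, Real.pow_rpow_inv_natCast hw hk, ← one_div] at h1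

theorem t_H2 : S_H2 := by
  intro hENG hMAJ hGS hMODB hMIN hMODA hMODC hMODE hUS hPWB A
  obtain ⟨C, X1, hC, hMAJ'⟩ := hMAJ hGS hMODB
  obtain ⟨X2, hMIN'⟩ := hMIN
  obtain ⟨R0, hMODE'⟩ := hMODE
  obtain ⟨hPW4, z0, hPWe⟩ := hPWB
  obtain ⟨hUS1, hUS2, hUS3⟩ := hUS
  obtain ⟨C₁, X₀, hpar⟩ := params (2 * A + 100) (200 * (2 * A + 20)) (C + R0 + 100) z0 hPW4 hPWe
  refine ⟨2 * A + 12, 2 * A + 16, C₁, X₀ + X1 + X2, ?_⟩
  intro z X hX hz1 hz2 hMS
  obtain ⟨hLK, hzL, hz3, hLW, hWX, hX0⟩ := hpar z X (by omega) hz1 hz2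
  have hR00 : (0 : ℝ) ≤ R0 := Nat.cast_nonneg R0
  have hL100 : 100 ≤ Real.log X := by linarith
  have hL1 : 1 ≤ Real.log X := by linarith
  have hW0 : 1 ≤ PW z := Nat.one_le_iff_ne_zero.2 (NeZero.ne (PW z))
  have hw1 : (1 : ℝ) ≤ PW z := by exact_mod_cast hW0
  have hxpos : (0 : ℝ) < X := by exact_mod_cast hX0
  have hX3 : 3 ≤ X := by
    by_contra hh
    push Not at hh
    have h1 : (X : ℝ) ≤ 3 := by exact_mod_cast hh.le
    have h2 := Real.log_le_sub_one_of_pos hxpos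
    linarith
  have hLi : ∀ i, i ≤ 2 * A + 100 → Real.log X ^ i ≤ PW z := fun i hi =>
    (pow_le_pow_right₀ hL1 hi).trans hLW
  have hwi : ∀ i, i ≤ 200 * (2 * A + 20) → (PW z : ℝ) ^ i ≤ X := fun i hi =>
    (pow_le_pow_right₀ hw1 hi).trans hWX
  have hQ1 : 1 ≤ PW z ^ (2 * A + 12) := Nat.one_le_pow _ _ hW0
  have hQW : PW z ^ (2 * A + 12) * PW z = PW z ^ (2 * A + 12 + 1) := (pow_succ _ _).symm
  have hL0 : Real.log X ≤ PW z := by
    have := hLi 1 (by omega)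
    rwa [pow_one] at this
  refine core A X (PW z) (Real.log X) C (PW z ^ (2 * A + 12)) (PW z ^ (2 * A + 12) * PW z)
    (fun h => SP z X h) (squarefree_PW z) rfl hL100 (by linarith) hC hX3 hLW hWX rfl rfl
    ((vv_le z (by omega)).trans hzL) hENG ?_ ?_ hMODA hMODC ?_ (fun h => hUS3 z X h hz3) ?_
    (fun n m hnm => hUS2 z n m (by omega) hnm)
  · intro n n' h1 h2 h3
    have h4 := hMAJ' (2 * A + 16) (PW z) (PW z ^ (2 * A + 12)) X (by omega) (squarefree_PW z)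
      hQ1 ?_ ?_ (by rw [hQW]; exact hMS) n n' h1 h2 h3
    · have e1 : (((PW z ^ (2 * A + 12) * PW z : ℕ)) : ℝ) =
          ((PW z ^ (2 * A + 12) : ℕ) : ℝ) * (PW z : ℝ) := by push_cast; rfl
      rw [e1]
      exact h4
    · push_cast
      have e1 : ((PW z : ℝ) ^ (2 * A + 12) * (PW z : ℝ)) ^ 40 = (PW z : ℝ) ^ (40 * (2 * A + 13)) := by
        rw [← pow_succ, ← pow_mul]
        congr 1
        ring
      rw [e1]
      exact hwi _ (by omega)
    · refine (hLi (2 * A + 16) (by omega)).trans ?_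
      have h5 := root_le (PW z : ℝ) X 4 (by norm_num) (by positivity) (hwi 4 (by omega))
      have e1 : (1 : ℝ) / ((4 : ℕ) : ℝ) = 1 / 4 := by norm_num
      rwa [e1] at h5
  · intro n hn α hα
    rw [mem_Ioc] at hn
    refine hMIN' (PW z) (PW z ^ (2 * A + 12)) X n (n + X) α (by omega) hW0 ?_ ?_ hn.1.le
      (by omega) (by omega) hα
    · push_cast
      refine (hLi 30 (by omega)).trans ?_
      have h1 : (PW z : ℝ) ^ 1 ≤ (PW z : ℝ) ^ (2 * A + 12) := pow_le_pow_right₀ hw1 (by omega)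
      rwa [pow_one] at h1
    · push_cast
      have h5 := root_le ((PW z : ℝ) ^ (2 * A + 12)) X 10 (by norm_num) (by positivity)
        (by rw [← pow_mul]; exact hwi _ (by omega))
      have e1 : (1 : ℝ) / ((10 : ℕ) : ℝ) = 1 / 10 := by norm_num
      rwa [e1] at h5
  · refine hMODE' z X (PW z ^ (2 * A + 12) * PW z) ?_ ?_ (by omega)
    · have h1 : (R0 : ℝ) ≤ PW z := by linarith
      have h2 : R0 ≤ PW z := by exact_mod_cast h1
      exact h2.trans (Nat.le_mul_of_pos_left _ hQ1)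
    · rw [hQW]
      exact_mod_cast hwi (2 * A + 12 + 1) (by omega)
  · intro n m hnm
    refine le_trans ?_ (hUS1 z n m (by omega) hnm)
    have hz0 : (0 : ℝ) < z := by
      have : 0 < z := by omega
      exact_mod_cast this
    exact div_le_div_of_nonneg_left (by positivity) (by positivity)
      (pow_le_pow_left₀ hz0.le hzL 2)

end Pool.Agent.Q14.SZ

theorem Pool.Agent.Q145.SZ.t_H2 : Pool.Agent.Q145.SZ.S_H2 := Pool.Agent.Q14.SZ.t_H2
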