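import Pool.Agent.Q14.SZ.UNA0
import Pool.Agent.Y157.PS.All
import Pool.Agent.Q51.SZ.Stm

/-! # Job SZ-UNA: the inertia group acts trivially on the roots of the ratios (helper14) -/

set_option autoImplicit false
set_option linter.all false

open Polynomial FF

namespace Pool.Agent.Q14.SZ

open Pool.Agent.Y157.PS Pool.Agent.Q51.SZ

theorem una (h : S_WG0) : S_UNA := by
  intro ℓ _ A k κ R M _ _ _ _ _ _ _ _ _ _ _ _ _ _ _ _ _ _ _ V ϖ δ m hB δ₀ hδ₀ hδ₀k x B Y hC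
    hGood hfix F _ r hr D s hs e he e' he' z hz σ hσ
  exact una0 a_exf a_stab a_g2 a_g3 a_gex a_gun ℓ A k κ R M V ϖ δ m hB δ₀ hδ₀ hδ₀k x B Y hC
    hGood hfix F r hr D s hs (fun O hO hun => h ℓ A k κ R M V ϖ δ m hB δ₀ hδ₀ hδ₀k x B Y hC
      hGood F r hr D s hs O hO hun) e he e' he' z hz σ hσ

end Pool.Agent.Q14.SZ
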