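import Pool.Agent.Y157.PS.Loc2

/-! # Job SZ-UNA: the inertia group acts trivially, with explicit hypotheses (helper14) -/

set_option autoImplicit false
set_option linter.all false

open Polynomial FF

namespace Pool.Agent.Q14.SZ

open Pool.Agent.Y157.PS

/-- the difference of `x` and a branch point is a unit -/
theorem sub_isU {ℓ : ℕ} [Fact ℓ.Prime] {κ R M : Type} [Field κ] [IsAlgClosed κ] [CharZero κ]
    [Field R] [Field M] [Algebra κ R] [Algebra R M] [Algebra κ M] [IsScalarTower κ R M] {x : R}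
    {B : Finset κ} {V : ValuationSubring κ} (hG : Good V B)
    {O : ValuationSubring M} (hO : Gauss V (algebraMap R M x) O) {e : κ} (he : e ∈ B) :
    IsU O (algebraMap R M x - algebraMap κ M e) := by
  have h2 : aeval (algebraMap R M x) (X - C e) = algebraMap R M x - algebraMap κ M e := by
    rw [map_sub, aeval_X, aeval_C]
  rw [← h2]
  refine hO.2 _ (fun n => ?_) ⟨1, ?_⟩
  · rw [coeff_sub, coeff_X, coeff_C]
    refine sub_mem ?_ ?_
    · split_ifs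
      · exact one_mem _
      · exact zero_mem _
    · split_ifs
      · exact hG.1 e he
      · exact zero_mem _
  · rw [coeff_sub, coeff_X_one, coeff_C, if_neg one_ne_zero, sub_zero]
    exact isU_one

theorem una0 (hEXF : S_EXF) (hSTAB : S_STAB) (hG2 : S_G2)
    (hG3 : S_G3) (hGEX : S_GEX) (hGUN : S_GUN)
    (ℓ : ℕ) [Fact ℓ.Prime] (A k κ R M : Type) [CommRing A] [IsDomain A]
    [IsDiscreteValuationRing A] [Field k] [Field κ] [Algebra A k] [Algebra k κ] [Algebra A κ]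
    [IsScalarTower A k κ] [IsFractionRing A k] [CharZero k] [IsAlgClosure k κ]
    [Finite (IsLocalRing.ResidueField A)] [Field R] [Field M] [Algebra κ R] [Algebra R M]
    [Algebra κ M] [IsScalarTower κ R M] (V : ValuationSubring κ) (ϖ : A) (δ : κ) (m : ℤ)
    (hB : Base ℓ A k κ V ϖ δ m) (δ₀ : κ) (hδ₀ : IsU V δ₀)
    (hδk : ∃ d : k, δ₀ ^ ℓ = algebraMap k κ d) (x : R) (B : Finset κ) (Y : M)
    (hC : Cov ℓ κ R M x B Y) (hGood : Good V B)
    (hfix : ∀ σ : κ ≃ₐ[k] κ, Ine V σ → ∀ e ∈ B, σ e = e)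
    (F : Type) [Field F] (r : V →+* F) (hr : Res V r) (D : Disc ℓ V r)
    (s : (κ ≃ₐ[k] κ) →* RingAut M) (hs : Sec k κ R M x Y δ₀ s)
    (wgt : ∀ O : ValuationSubring M, Gauss V (algebraMap R M x) O →
      (∀ O' : ValuationSubring M, Gauss V (algebraMap R M x) O' → O' = O) →
      ∀ σ, Ine V σ → σ δ = δ → ∀ z ∈ O, s σ z - z ∈ O.nonunits)
    (e : κ) (he : e ∈ B) (e' : κ) (he' : e' ∈ B) (h : M)
    (hh : h ^ ℓ = (algebraMap R M x - algebraMap κ M e) /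
      (algebraMap R M x - algebraMap κ M e')) (σ : κ ≃ₐ[k] κ) (hσ : Ine V σ) : s σ h = h := by
  have hac : IsAlgClosed κ := IsAlgClosure.isAlgClosed k
  have hcz : CharZero κ := charZero_of_injective_algebraMap (algebraMap k κ).injective
  have hp := (Fact.out : ℓ.Prime).pos
  have hℓ : IsU V (ℓ : κ) := hB.isU
  have hδ0 := hB.δ0
  have hRot := hGEX ℓ κ R M x B Y hC F V r hr hGood D
  obtain ⟨O, -, -, hO, -⟩ := hRot e he
  have hun : ∀ O' : ValuationSubring M, Gauss V (algebraMap R M x) O' → O' = O :=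
    fun O' h => hGUN ℓ κ R M x B Y hC V hRot O' O h hO
  have hYU : IsU O Y := hC.Y_isU hGood hO
  have hY0 : Y ≠ 0 := hYU.1
  have st : ∀ σ : κ ≃ₐ[k] κ, Dec V σ → ∀ z, s σ z ∈ O ↔ z ∈ O := fun σ hσ =>
    hO.stable hun (s σ) (σ : κ ≃+* κ) (hs.const σ) (hs.fixx σ) hσ
  have stn : ∀ σ : κ ≃ₐ[k] κ, Dec V σ → ∀ z, s σ z ∈ O.nonunits ↔ z ∈ O.nonunits := fun σ hσ =>
    stable_non (st σ hσ)
  have gt : ∀ (γ : M ≃ₐ[R] M) z, γ z ∈ O ↔ z ∈ O := fun γ => hO.stable' hun γ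
  have wgt := wgt O hO hun
  have UL : ∀ γ γ' : M ≃ₐ[R] M, (∀ z ∈ O, γ z - γ' z ∈ O.nonunits) → γ = γ' :=
    unique_lift hG2 hC hℓ hO hun
  have smul : ∀ (σ σ' : κ ≃ₐ[k] κ) z, s (σ * σ') z = s σ (s σ' z) := by
    intro σ σ' z
    rw [map_mul]; rfl
  -- the lift of `s σ`
  obtain ⟨γ, hγ⟩ := exists_lift hG3 hC hO hun (s σ) (st σ hσ.1) (fun c hc => by
    rw [hs.const, ← map_sub, hO.nonunit]; exact hσ.2 c hc) (hs.fixx σ)
  have hpow : ∀ (n : ℕ), ∀ z ∈ O, (γ ^ n) z - s (σ ^ n) z ∈ O.nonunits := by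
    intro n
    induction n with
    | zero =>
      intro z hz
      rw [pow_zero, pow_zero, map_one]
      change z - z ∈ _
      rw [sub_self]; exact nonunits_iff.2 ⟨zero_mem _, Or.inl rfl⟩
    | succ n ih =>
      intro z hz
      rw [pow_succ, pow_succ, smul]
      change (γ ^ n) (γ z) - _ ∈ _
      have h1 : (γ ^ n) (γ z) - s (σ ^ n) (s σ z) =
          ((γ ^ n) (γ z) - s (σ ^ n) (γ z)) + s (σ ^ n) (γ z - s σ z) := by
        rw [map_sub]; ring
      rw [h1]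
      exact non_add (ih _ ((gt γ z).2 hz)) ((stn _ (hσ.pow n).1 _).2 (hγ z hz))
  -- `σ ^ ℓ` fixes `δ`
  have hζℓ : (σ δ / δ) ^ ℓ = 1 := hB.ratio σ
  have hσζ : σ (σ δ / δ) = σ δ / δ := hσ.fix_root hℓ hζℓ
  have hσn : ∀ n : ℕ, (σ ^ n) δ = (σ δ / δ) ^ n * δ := by
    intro n
    induction n with
    | zero => rw [pow_zero, pow_zero, one_mul]; rfl
    | succ n ih =>
      rw [pow_succ']
      change σ ((σ ^ n) δ) = _
      rw [ih, map_mul, map_pow, hσζ, pow_succ, mul_assoc, div_mul_cancel₀ _ hδ0]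
  have hσℓ : (σ ^ ℓ) δ = δ := by rw [hσn, hζℓ, one_mul]
  have hγℓ : γ ^ ℓ = 1 := by
    apply UL
    intro z hz
    change _ - z ∈ _
    have h1 : (γ ^ ℓ) z - z = ((γ ^ ℓ) z - s (σ ^ ℓ) z) + (s (σ ^ ℓ) z - z) := by ring
    rw [h1]
    exact non_add (hpow ℓ z hz) (wgt _ (hσ.pow ℓ) hσℓ z hz)
  -- `s σ` fixes `Y`
  have hδ₀0 : δ₀ ≠ 0 := hδ₀.1
  have hξ : σ δ₀ / δ₀ = 1 := by
    obtain ⟨d, hd⟩ := hδk
    refine root_eq hℓ hp ?_ (one_pow _) ?_
    · rw [div_pow, ← map_pow, hd, σ.commutes, ← hd, div_self (pow_ne_zero _ hδ₀0)]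
    · refine non_of_isU_mul hδ₀ ?_
      rw [mul_sub, mul_div_cancel₀ _ hδ₀0, mul_one]
      exact hσ.2 δ₀ hδ₀.2.1
  have hsY : s σ Y = Y := by rw [hs.fixy, hξ, map_one, one_mul]
  have hγY : γ Y = Y := by
    obtain ⟨ζ, hζ, h1⟩ := hC.actY hY0 γ
    have h2 := hγ Y hYU.2.1
    rw [h1, hsY] at h2
    have h3 : Y * algebraMap κ M (ζ - 1) = algebraMap κ M ζ * Y - Y := by
      rw [map_sub, map_one]; ring
    rw [← h3] at h2
    have h4 := (hO.nonunit).1 (non_of_isU_mul hYU h2)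
    rw [h1, root_eq hℓ hp hζ (one_pow _) h4, map_one, one_mul]
  have hγ1 : γ = 1 := by
    by_contra hne
    obtain ⟨W, hW⟩ := hEXF ℓ κ R M x B Y hC γ hγℓ hne
    exact (hC.fixed hSTAB W γ hW hne).1 hγY
  have htriv : ∀ z ∈ O, s σ z - z ∈ O.nonunits := by
    intro z hz
    have h1 := hγ z hz
    rw [hγ1] at h1
    change z - s σ z ∈ _ at h1
    have h2 := non_neg h1
    rwa [neg_sub] at h2
  -- the root `h`
  have hU : IsU O h := by
    refine isU_of_pow hp ?_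
    rw [hh]
    exact (sub_isU (ℓ := ℓ) hGood hO he).div (sub_isU (ℓ := ℓ) hGood hO he')
  have h0 : h ≠ 0 := hU.1
  have hsh : (s σ h / h) ^ ℓ = 1 := by
    rw [div_pow, ← map_pow, hh, map_div₀, map_sub, map_sub, hs.fixx, hs.const, hs.const,
      hfix σ hσ e he, hfix σ hσ e' he', ← hh, div_self (pow_ne_zero _ h0)]
  obtain ⟨ζ, hζ, hζ1⟩ := const_of_pow (κ := κ) (z := s σ h / h) (a := 1) hp (by rw [hsh, map_one])
  have hsh' : s σ h = algebraMap κ M ζ * h := by rw [hζ, div_mul_cancel₀ _ h0]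
  have h2 := htriv h hU.2.1
  rw [hsh'] at h2
  have h3 : h * algebraMap κ M (ζ - 1) = algebraMap κ M ζ * h - h := by
    rw [map_sub, map_one]; ring
  rw [← h3] at h2
  have h4 := (hO.nonunit).1 (non_of_isU_mul hU h2)
  rw [hsh', root_eq hℓ hp hζ1 (one_pow _) h4, map_one, one_mul]

end Pool.Agent.Q14.SZ
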