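import Pool.Agent.Q14.SZ.UNG0
import Pool.Agent.Y157.PS.All

/-! # Job SZ-UNG (helper14) -/

set_option autoImplicit false
set_option linter.all false

namespace Pool.Agent.Q14.SZ

open Pool.Agent.Y157.PS Pool.Agent.Q51.SZ

theorem ung (h : S_UNA) : S_UNG := ung1 h a_cov a_ndisc

end Pool.Agent.Q14.SZ
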