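import Pool.Agent.Y157.PS.GeoC
import Pool.Agent.Q51.SZ.Stm

/-! # Job SZ-UNG: the geometric form, with explicit hypotheses (helper14) -/

set_option autoImplicit false
set_option linter.all false

open Polynomial FF

namespace Pool.Agent.Q14.SZ

open Pool.Agent.Y157.PS Pool.Agent.Q51.SZ

section absM

variable {A k κ R F M N : Type} [CommRing A] [IsDomain A] [IsDiscreteValuationRing A]
    [Finite (IsLocalRing.ResidueField A)] [Field k] [CharZero k] [Algebra A k] [IsFractionRing A k]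
    [Field κ] [Algebra k κ] [Algebra A κ] [IsScalarTower A k κ] [IsAlgClosure k κ]
    [Field R] [Field F] [Field M] [Field N] [Algebra κ R] [Algebra R M] [Algebra κ M]
    [IsScalarTower κ R M] [Algebra F N]

theorem ungM (hUNA : S_UNA) (hND : S_NDISC) {ℓ : ℕ} [Fact ℓ.Prime] (V : ValuationSubring κ)
    (hVa : ∀ a : A, algebraMap A κ a ∈ V)
    (hVm : ∀ a ∈ IsLocalRing.maximalIdeal A, algebraMap A κ a ∈ V.nonunits)
    (ϖ : A) (δ₁ : κ) (m : ℤ) (hBase : Base ℓ A k κ V ϖ δ₁ m) (δ δ₀ : κ) (hδ₀ : IsU V δ₀)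
    (hδk : ∃ d : k, δ₀ ^ ℓ = algebraMap k κ d) (hδ0 : δ ≠ 0)
    (hrat : ∀ σ : κ ≃ₐ[k] κ, σ δ / δ = σ δ₀ / δ₀)
    (x' : R) (B : Finset κ) (Y' : M)
    (hCov : Cov ℓ κ R M x' B Y') (hGood : Good V B)
    (hfix : ∀ σ : κ ≃ₐ[k] κ, Ine V σ → ∀ e ∈ B, σ e = e) (eqv : M ≃+* N) (x y : F)
    (hx : eqv (algebraMap R M x') = algebraMap F N x)
    (hy : eqv Y' = eqv (algebraMap κ M δ) * algebraMap F N y)
    (S : (κ ≃ₐ[k] κ) →* (N ≃ₐ[F] N))
    (hcont : ∀ z : N, ∃ E : IntermediateField k κ, FiniteDimensional k E ∧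
      ∀ σ ∈ E.fixingSubgroup, S σ z = z)
    (hcompat : ∀ σ c, S σ (eqv (algebraMap κ M c)) = eqv (algebraMap κ M (σ c)))
    (e : κ) (he : e ∈ B) (e' : κ) (he' : e' ∈ B) (h : N)
    (hh : h ^ ℓ = (algebraMap F N x - eqv (algebraMap κ M e)) /
      (algebraMap F N x - eqv (algebraMap κ M e'))) (σ : κ ≃ₐ[k] κ) (hσ : Ine V σ) :
    S σ h = h := by
  classical
  let s' : (κ ≃ₐ[k] κ) →* RingAut M := conjSec eqv S
  have hs' : ∀ σ z, eqv (s' σ z) = S σ (eqv z) := fun σ z => conjSec_apply eqv S σ z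
  have hconst : ∀ σ c, s' σ (algebraMap κ M c) = algebraMap κ M (σ c) := by
    intro σ c
    apply eqv.injective
    rw [hs', hcompat]
  have hbase : ∀ σ (z : F) (w : M), eqv w = algebraMap F N z → s' σ w = w := by
    intro σ z w hw
    apply eqv.injective
    rw [hs', hw]
    exact (S σ).commutes z
  have hyY : Y' = algebraMap κ M δ * eqv.symm (algebraMap F N y) := by
    apply eqv.injective
    rw [hy, map_mul, eqv.apply_symm_apply]
  have hSec : Sec k κ R M x' Y' δ₀ s' := by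
    refine ⟨hconst, fun σ => hbase σ x _ hx, fun σ => ?_, fun z => ?_⟩
    · have h2 : algebraMap κ M (σ δ₀ / δ₀) * Y' =
          algebraMap κ M (σ δ) * eqv.symm (algebraMap F N y) := by
        rw [← hrat, hyY, ← mul_assoc, ← map_mul, div_mul_cancel₀ _ hδ0]
      rw [h2]
      conv_lhs => rw [hyY]
      rw [map_mul, hconst, hbase σ y _ (eqv.apply_symm_apply _)]
    · obtain ⟨E, hE, hE'⟩ := hcont (eqv z)
      refine ⟨E, hE, fun σ hσ => eqv.injective ?_⟩
      rw [hs', hE' σ hσ]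
  obtain ⟨F0, iF0, r, hr, ⟨D⟩⟩ := hND A k κ V hVa hVm ℓ hBase.lunit
  have h1 := hUNA ℓ A k κ R M V ϖ δ₁ m hBase δ₀ hδ₀ hδk x' B Y' hCov hGood hfix F0 r hr D s' hSec
    e he e' he' (eqv.symm h) (by
      apply eqv.injective
      rw [map_pow, eqv.apply_symm_apply, hh, map_div₀, map_sub, map_sub, hx]) σ hσ
  have h2 := congrArg eqv h1
  rw [hs', eqv.apply_symm_apply] at h2
  exact h2

end absM

section absI

variable {A k κ R F Ω : Type} [CommRing A] [IsDomain A] [IsDiscreteValuationRing A]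
    [Finite (IsLocalRing.ResidueField A)] [Field k] [CharZero k] [Algebra A k] [IsFractionRing A k]
    [Field κ] [Algebra k κ] [Algebra A κ] [IsScalarTower A k κ] [IsAlgClosure k κ]
    [Field R] [Field F] [Field Ω] [Algebra κ R] [Algebra R Ω] [Algebra κ Ω]
    [IsScalarTower κ R Ω] [IsAlgClosure R Ω] [Algebra F Ω] [Algebra.IsAlgebraic F Ω]

theorem ungI (hUNA : S_UNA) (hCOV : S_COV) (hND : S_NDISC) {ℓ : ℕ} [Fact ℓ.Prime]
    (V : ValuationSubring κ)
    (hVa : ∀ a : A, algebraMap A κ a ∈ V)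
    (hVm : ∀ a ∈ IsLocalRing.maximalIdeal A, algebraMap A κ a ∈ V.nonunits)
    (ϖ : A) (δ₁ : κ) (m : ℤ) (hBase : Base ℓ A k κ V ϖ δ₁ m) (δ δ₀ : κ) (hδ₀ : IsU V δ₀)
    (hδk : ∃ d : k, δ₀ ^ ℓ = algebraMap k κ d) (hδ0 : δ ≠ 0)
    (hratio : ∀ σ : κ ≃ₐ[k] κ, σ δ / δ = σ δ₀ / δ₀)
    (x' : R) (hrat : RatF κ x') (B : Finset κ) (hdvd : ℓ ∣ B.card) (h3 : 3 ≤ B.card)
    (hGood : Good V B) (hfix : ∀ σ : κ ≃ₐ[k] κ, Ine V σ → ∀ e ∈ B, σ e = e) (Y0 : Ω)
    (hY : Y0 ^ ℓ = ∏ e ∈ B, (algebraMap R Ω x' - algebraMap κ Ω e))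
    (x y : F) (hx : algebraMap R Ω x' = algebraMap F Ω x)
    (hy : Y0 = algebraMap κ Ω δ * algebraMap F Ω y)
    (N : IntermediateField F Ω)
    (hN : ∀ z, z ∈ maxPro ℓ κ (IntermediateField.adjoin R {Y0}) Ω ↔ z ∈ N)
    (S : (κ ≃ₐ[k] κ) →* (N ≃ₐ[F] N)) (hcont : Continuous S)
    (hcompat : ∀ σ c (z : N), (z : Ω) = algebraMap κ Ω c → (S σ z : Ω) = algebraMap κ Ω (σ c))
    (e : κ) (he : e ∈ B) (e' : κ) (he' : e' ∈ B) (h : N)
    (hh : (h : Ω) ^ ℓ = (algebraMap F Ω x - algebraMap κ Ω e) /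
      (algebraMap F Ω x - algebraMap κ Ω e')) (σ : κ ≃ₐ[k] κ) (hσ : Ine V σ) :
    S σ h = h := by
  classical
  have hkb : IsAlgClosed κ := IsAlgClosure.isAlgClosed k
  have hch : CharZero κ := charZero_of_injective_algebraMap (algebraMap k κ).injective
  obtain ⟨M, hM⟩ : ∃ M : IntermediateField R Ω,
      ∀ z, z ∈ M ↔ z ∈ maxPro ℓ κ (IntermediateField.adjoin R {Y0}) Ω :=
    ⟨(maxPro ℓ κ (IntermediateField.adjoin R {Y0}) Ω).restrictScalars R, fun z => Iff.rfl⟩
  have hYM : Y0 ∈ M := by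
    rw [hM]
    exact (maxPro ℓ κ (IntermediateField.adjoin R {Y0}) Ω).algebraMap_mem
      ⟨Y0, IntermediateField.mem_adjoin_simple_self _ _⟩
  have hCov : Cov ℓ κ R M x' B ⟨Y0, hYM⟩ :=
    hCOV ℓ κ R Ω x' hrat B hdvd h3 Y0 hY M hM ⟨Y0, hYM⟩ rfl
  have hMN : ∀ z, z ∈ M ↔ z ∈ N := fun z => (hM z).trans (hN z)
  let eqv : M ≃+* N :=
    { toFun := fun w => ⟨w.1, (hMN _).1 w.2⟩
      invFun := fun w => ⟨w.1, (hMN _).2 w.2⟩
      left_inv := fun w => rfl
      right_inv := fun w => rfl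
      map_mul' := fun w w' => rfl
      map_add' := fun w w' => rfl }
  refine ungM hUNA hND V hVa hVm ϖ δ₁ m hBase δ δ₀ hδ₀ hδk hδ0 hratio x' B
    ⟨Y0, hYM⟩ hCov hGood hfix eqv x y (Subtype.ext hx) (Subtype.ext hy) S
    (fun z => cont_fix S hcont z) (fun σ c => Subtype.ext (hcompat σ c _ rfl)) e he e' he' h ?_ σ hσ
  apply Subtype.ext
  exact hh

end absI

section main

variable {A k F Ω : Type} [CommRing A] [IsDomain A] [IsDiscreteValuationRing A]
    [Finite (IsLocalRing.ResidueField A)] [Field k] [CharZero k] [Algebra A k] [IsFractionRing A k]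
    [Field F] [Field Ω] [Algebra k F] [Algebra F Ω] [Algebra k Ω] [IsScalarTower k F Ω]
    [IsAlgClosed Ω] [Algebra.IsAlgebraic F Ω]

theorem ung0 (hUNA : S_UNA) (hCOV : S_COV) (hND : S_NDISC) {ℓ : ℕ} [Fact ℓ.Prime]
    (V : ValuationSubring (algebraicClosure k Ω))
    (hVA : ∀ a : A, algebraMap k (algebraicClosure k Ω) (algebraMap A k a) ∈ V)
    (hVm : ∀ a ∈ IsLocalRing.maximalIdeal A,
      algebraMap k (algebraicClosure k Ω) (algebraMap A k a) ∈ V.nonunits)
    (hℓ : IsUnit (ℓ : A)) (f : A[X]) (hlc : IsUnit f.leadingCoeff)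
    (hs : (f.map (IsLocalRing.residue A)).Separable) (hdvd : ℓ ∣ f.natDegree)
    (h3 : 3 ≤ f.natDegree) (ϖ : A) (hϖ : Irreducible ϖ) (d : k) (m : ℤ) (hm : (ℓ : ℤ) ∣ m)
    (t : A) (ht : IsUnit t) (hd : d = algebraMap A k t * algebraMap A k ϖ ^ m)
    (x y : F) (hx : Transcendental k x)
    (hxy : algebraMap k F d * y ^ ℓ = aeval x (f.map (algebraMap A k)))
    (hF : IntermediateField.adjoin k {x, y} = (⊤ : IntermediateField k F))
    (S : (algebraicClosure k Ω ≃ₐ[k] algebraicClosure k Ω) →*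
      (geomPro ℓ k F Ω ≃ₐ[F] geomPro ℓ k F Ω)) (hcont : Continuous S)
    (hcompat : ∀ σ (c : algebraicClosure k Ω) (z : geomPro ℓ k F Ω), (z : Ω) = (c : Ω) →
      (S σ z : Ω) = (σ c : Ω))
    (e e' : algebraicClosure k Ω) (he : aeval e (f.map (algebraMap A k)) = 0)
    (he' : aeval e' (f.map (algebraMap A k)) = 0) (h : geomPro ℓ k F Ω)
    (hh : (h : Ω) ^ ℓ = (algebraMap F Ω x - (e : Ω)) / (algebraMap F Ω x - (e' : Ω)))
    (σ : algebraicClosure k Ω ≃ₐ[k] algebraicClosure k Ω) (hσ : Ine V σ) : S σ h = h := by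
  classical
  have hℓp : ℓ.Prime := Fact.out
  have hac : IsAlgClosure k (algebraicClosure k Ω) := inferInstance
  have hkb : IsAlgClosed (algebraicClosure k Ω) := hac.1
  have hch : CharZero (algebraicClosure k Ω) :=
    charZero_of_injective_algebraMap (algebraMap k (algebraicClosure k Ω)).injective
  letI : Algebra A (algebraicClosure k Ω) :=
    ((algebraMap k (algebraicClosure k Ω)).comp (algebraMap A k)).toAlgebra
  haveI hst : IsScalarTower A k (algebraicClosure k Ω) :=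
    IsScalarTower.of_algebraMap_eq (fun _ => rfl)
  have hVa : ∀ a : A, algebraMap A (algebraicClosure k Ω) a ∈ V := hVA
  have hVm' : ∀ a ∈ IsLocalRing.maximalIdeal A, algebraMap A (algebraicClosure k Ω) a ∈
    V.nonunits := hVm
  have hunit : ∀ b : A, IsUnit b → IsU V (algebraMap A (algebraicClosure k Ω) b) := by
    rintro b ⟨b, rfl⟩
    refine ⟨(b.isUnit.map (algebraMap A (algebraicClosure k Ω))).ne_zero, hVa _, ?_⟩
    have h1 : (algebraMap A (algebraicClosure k Ω) (b : A))⁻¹ =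
        algebraMap A (algebraicClosure k Ω) ((b⁻¹ : Aˣ) : A) := by
      refine inv_eq_of_mul_eq_one_right ?_
      rw [← map_mul, Units.mul_inv, map_one]
    rw [h1]
    exact hVa _
  have hAk : Function.Injective (algebraMap A k) := IsFractionRing.injective A k
  have hAinj : Function.Injective (algebraMap A (algebraicClosure k Ω)) := by
    rw [IsScalarTower.algebraMap_eq A k (algebraicClosure k Ω)]
    exact (algebraMap k (algebraicClosure k Ω)).injective.comp hAk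
  have hϖk0 : algebraMap A k ϖ ≠ 0 := by
    rw [Ne, map_eq_zero_iff _ hAk]
    exact hϖ.ne_zero
  have hlck0 : algebraMap A k f.leadingCoeff ≠ 0 := by
    rw [Ne, map_eq_zero_iff _ hAk]
    exact hlc.ne_zero
  have htk0 : algebraMap A k t ≠ 0 := by
    rw [Ne, map_eq_zero_iff _ hAk]
    exact ht.ne_zero
  have hϖ0 : algebraMap A (algebraicClosure k Ω) ϖ ≠ 0 := by
    rw [Ne, map_eq_zero_iff _ hAinj]
    exact hϖ.ne_zero
  -- the elements `δ₀`, `δ`, `δ₁`
  obtain ⟨j, hj⟩ := hm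
  obtain ⟨δ₀, hδ₀⟩ : ∃ δ : algebraicClosure k Ω, δ ^ ℓ =
      algebraMap k (algebraicClosure k Ω) (algebraMap A k t / algebraMap A k f.leadingCoeff) :=
    IsAlgClosed.exists_pow_nat_eq _ hℓp.pos
  have hδ₀U : IsU V δ₀ := by
    refine isU_of_pow hℓp.pos ?_
    rw [hδ₀, map_div₀, ← IsScalarTower.algebraMap_apply, ← IsScalarTower.algebraMap_apply]
    exact (hunit t ht).div (hunit _ hlc)
  have hδ₀0 : δ₀ ≠ 0 := hδ₀U.1
  set δ : algebraicClosure k Ω := δ₀ * algebraMap A (algebraicClosure k Ω) ϖ ^ j with hδdef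
  have hδ0 : δ ≠ 0 := mul_ne_zero hδ₀0 (zpow_ne_zero _ hϖ0)
  have hδ : δ ^ ℓ =
      algebraMap k (algebraicClosure k Ω) (d / algebraMap A k f.leadingCoeff) := by
    rw [hδdef, mul_pow, hδ₀, ← zpow_natCast (algebraMap A (algebraicClosure k Ω) ϖ ^ j) ℓ,
      ← zpow_mul, mul_comm j, ← hj, hd, IsScalarTower.algebraMap_apply A k (algebraicClosure k Ω) ϖ,
      ← map_zpow₀, ← map_mul]
    congr 1
    field_simp
  have hσϖ : ∀ σ : algebraicClosure k Ω ≃ₐ[k] algebraicClosure k Ω,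
      σ (algebraMap A (algebraicClosure k Ω) ϖ) = algebraMap A (algebraicClosure k Ω) ϖ := by
    intro σ
    rw [IsScalarTower.algebraMap_apply A k (algebraicClosure k Ω)]
    exact σ.commutes _
  have hratio : ∀ σ : algebraicClosure k Ω ≃ₐ[k] algebraicClosure k Ω,
      σ δ / δ = σ δ₀ / δ₀ := by
    intro σ
    rw [hδdef, map_mul, map_zpow₀, hσϖ, mul_div_mul_right _ _ (zpow_ne_zero _ hϖ0)]
  obtain ⟨δ₁, hδ₁⟩ : ∃ δ : algebraicClosure k Ω, δ ^ ℓ =
      algebraMap k (algebraicClosure k Ω) (algebraMap A k ϖ) :=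
    IsAlgClosed.exists_pow_nat_eq _ hℓp.pos
  have hBase : Base ℓ A k (algebraicClosure k Ω) V ϖ δ₁ 1 := by
    refine ⟨hℓ, hVa, hVm', hϖ, ?_, ⟨_, hδ₁⟩, ?_⟩
    · intro h1
      have h2 := Int.natAbs_dvd_natAbs.2 h1
      rw [Int.natAbs_natCast, Int.natAbs_one, Nat.dvd_one] at h2
      exact hℓp.ne_one h2
    · rw [hδ₁, zpow_one, ← IsScalarTower.algebraMap_apply, div_self hϖ0]
      exact isU_one
  -- the roots
  obtain ⟨hnd, hdist⟩ := Pool.Agent.W623.SecC.roots_distinct V hVa hVm' f hlc hs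
  set P := f.map (algebraMap A (algebraicClosure k Ω)) with hP
  have hlc0 : algebraMap A (algebraicClosure k Ω) f.leadingCoeff ≠ 0 := (hunit _ hlc).1
  have hP0 : P ≠ 0 := by
    intro h
    apply hlc0
    rw [← leadingCoeff_map_of_leadingCoeff_ne_zero _ hlc0, ← hP, h, leadingCoeff_zero]
  have hPdeg : P.natDegree = f.natDegree := natDegree_map_of_leadingCoeff_ne_zero _ hlc0
  set B : Finset (algebraicClosure k Ω) := P.roots.toFinset with hBdef
  have hmemB : ∀ θ, θ ∈ B ↔ aeval θ f = 0 := by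
    intro θ
    rw [hBdef, Multiset.mem_toFinset, mem_roots hP0, IsRoot.def, hP, eval_map]
    rfl
  have hcard : B.card = f.natDegree := by
    rw [hBdef, Multiset.toFinset_card_of_nodup hnd, ← hPdeg]
    exact (IsAlgClosed.splits P).natDegree_eq_card_roots.symm
  have hGood : Good V B := by
    constructor
    · intro e he
      exact Pool.Agent.W308.SecC.root_mem V hVa f hlc _ ((hmemB _).1 he)
    · intro e he e' he' hne
      exact hdist e (Multiset.mem_toFinset.1 he) e' (Multiset.mem_toFinset.1 he') hne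
  have hfix : ∀ σ : algebraicClosure k Ω ≃ₐ[k] algebraicClosure k Ω, Ine V σ →
      ∀ e ∈ B, σ e = e := by
    intro σ hσ e he
    have h1 : σ e ∈ B := by
      rw [hmemB, ← aeval_map_algebraMap k]
      have h2 := (hmemB e).1 he
      rw [← aeval_map_algebraMap k] at h2
      have h4 : aeval (σ e) (f.map (algebraMap A k)) =
          σ (aeval e (f.map (algebraMap A k))) :=
        aeval_algHom_apply (σ : algebraicClosure k Ω →ₐ[k] algebraicClosure k Ω) e _
      rw [h4, h2, map_zero]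
    by_contra hne
    exact (hGood.2 _ h1 _ he hne).not_nonunit (hσ.2 e (hGood.1 e he))
  -- the product formula
  have hPx : ∀ z : Ω, P.eval₂ (algebraMap (algebraicClosure k Ω) Ω) z =
      algebraMap (algebraicClosure k Ω) Ω (algebraMap A (algebraicClosure k Ω) f.leadingCoeff) *
        ∏ e ∈ B, (z - algebraMap (algebraicClosure k Ω) Ω e) := by
    intro z
    have h1 := (IsAlgClosed.splits P).eq_prod_roots
    have h5 : P.leadingCoeff = algebraMap A (algebraicClosure k Ω) f.leadingCoeff :=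
      leadingCoeff_map_of_leadingCoeff_ne_zero _ hlc0
    rw [h5] at h1
    have h6 : ∏ e ∈ B, (z - algebraMap (algebraicClosure k Ω) Ω e) =
        (P.roots.map fun e => z - algebraMap (algebraicClosure k Ω) Ω e).prod := by
      rw [hBdef, Finset.prod, Multiset.toFinset_val, Multiset.dedup_eq_self.2 hnd]
    rw [h6]
    conv_lhs => rw [h1]
    rw [eval₂_mul, eval₂_C, ← coe_eval₂RingHom, map_multiset_prod, Multiset.map_map]
    congr 2
    refine Multiset.map_congr rfl fun a _ => ?_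
    simp
  have hfx : algebraMap F Ω (aeval x (f.map (algebraMap A k))) =
      P.eval₂ (algebraMap (algebraicClosure k Ω) Ω) (algebraMap F Ω x) := by
    rw [aeval_def, hom_eval₂, hP, eval₂_map, eval₂_map, ← IsScalarTower.algebraMap_eq k F Ω,
      IsScalarTower.algebraMap_eq A k (algebraicClosure k Ω), ← RingHom.comp_assoc,
      ← IsScalarTower.algebraMap_eq k (algebraicClosure k Ω) Ω]
  set Y0 : Ω := (δ : Ω) * algebraMap F Ω y with hY0
  have hY : Y0 ^ ℓ = ∏ e ∈ B, (algebraMap F Ω x - algebraMap (algebraicClosure k Ω) Ω e) := by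
    have h1 := congrArg (algebraMap F Ω) hxy
    rw [map_mul, map_pow, ← IsScalarTower.algebraMap_apply, hfx, hPx] at h1
    have h5 : algebraMap (algebraicClosure k Ω) Ω
        (algebraMap A (algebraicClosure k Ω) f.leadingCoeff) ≠ 0 := (_root_.map_ne_zero _).2 hlc0
    have h6 : (δ : Ω) ^ ℓ = algebraMap k Ω d / algebraMap (algebraicClosure k Ω) Ω
        (algebraMap A (algebraicClosure k Ω) f.leadingCoeff) := by
      have h7 := congrArg (algebraMap (algebraicClosure k Ω) Ω) hδ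
      rw [map_pow, map_div₀, map_div₀, ← IsScalarTower.algebraMap_apply] at h7
      exact h7
    rw [hY0, mul_pow, h6, div_mul_eq_mul_div, h1, mul_div_cancel_left₀ _ h5]
  -- the covering field
  have hX0 : Transcendental k (algebraMap F Ω x) :=
    (transcendental_algebraMap_iff (R := k) (algebraMap F Ω).injective (a := x)).2 hx
  have hrat := ratF_adj (trans_up hX0)
  have hYR : Y0 ^ ℓ ∈ IntermediateField.adjoin (algebraicClosure k Ω) {algebraMap F Ω x} := by
    rw [hY]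
    exact prod_mem fun e _ => sub_mem (IntermediateField.mem_adjoin_simple_self _ _)
      (IntermediateField.algebraMap_mem _ e)
  have hclR := closure_R hF δ hδ0 hℓp.pos hYR
  refine ungI (R := IntermediateField.adjoin (algebraicClosure k Ω) {algebraMap F Ω x}) hUNA hCOV
    hND V hVa hVm' ϖ δ₁ 1 hBase δ δ₀ hδ₀U ⟨_, hδ₀⟩ hδ0 hratio
    ⟨algebraMap F Ω x, IntermediateField.mem_adjoin_simple_self _ _⟩
    hrat B (by rw [hcard]; exact hdvd) (by rw [hcard]; exact h3) hGood hfix Y0 hY x y rfl hY0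
    (geomPro ℓ k F Ω) (fun z => maxPro_geom ℓ k hF δ hδ0 z) S hcont
    (fun σ c z hz => hcompat σ c z hz) e ?_ e' ?_ h hh σ hσ
  · rw [hmemB, ← aeval_map_algebraMap k]
    exact he
  · rw [hmemB, ← aeval_map_algebraMap k]
    exact he'

end main

theorem ung1 (hUNA : S_UNA) (hCOV : S_COV) (hND : S_NDISC) : S_UNG := by
  intro A k F Ω _ _ _ _ _ _ _ _ _ _ _ _ _ _ _ _ ℓ _ V hVA hVm hℓ f hlc hs hdvd h3 ϖ hϖ d m hm t
    ht hd x y hx hxy hF S hcont hcompat e e' he he' h hh σ hσ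
  exact ung0 hUNA hCOV hND V hVA hVm hℓ f hlc hs hdvd h3 ϖ hϖ d m hm t ht hd x y hx hxy hF S hcont
    hcompat e e' he he' h hh σ hσ

end Pool.Agent.Q14.SZ
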